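import Mathlib

set_option autoImplicit false

namespace Q36.Ch

section Ring

variable {R : Type*} [CommRing R]

/-- homogeneous power sums: for `e0 = 1` and `e1, e2, 1` the elementary symmetric functions
of `x, y, z` this is `x ^ n + y ^ n + z ^ n`. -/
def ps (e0 e1 e2 : R) : ℕ → R
  | 0 => 3
  | 1 => e1
  | 2 => e1 ^ 2 - 2 * e0 * e2
  | (n + 3) => e1 * ps e0 e1 e2 (n + 2) - e0 * e2 * ps e0 e1 e2 (n + 1) + e0 ^ 3 * ps e0 e1 e2 n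

theorem ps_zero (e0 e1 e2 : R) : ps e0 e1 e2 0 = 3 := by rw [ps]
theorem ps_one (e0 e1 e2 : R) : ps e0 e1 e2 1 = e1 := by rw [ps]
theorem ps_two (e0 e1 e2 : R) : ps e0 e1 e2 2 = e1 ^ 2 - 2 * e0 * e2 := by rw [ps]
theorem ps_rec (e0 e1 e2 : R) (n : ℕ) : ps e0 e1 e2 (n + 3) =
    e1 * ps e0 e1 e2 (n + 2) - e0 * e2 * ps e0 e1 e2 (n + 1) + e0 ^ 3 * ps e0 e1 e2 n := by
  rw [ps]

theorem ps_ind (p : ℕ → Prop) (h0 : p 0) (h1 : p 1) (h2 : p 2)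
    (h : ∀ n, p n → p (n + 1) → p (n + 2) → p (n + 3)) : ∀ n, p n := by
  have : ∀ n, p n ∧ p (n + 1) ∧ p (n + 2) := by
    intro n
    induction n with
    | zero => exact ⟨h0, h1, h2⟩
    | succ n ih => exact ⟨ih.2.1, ih.2.2, h n ih.1 ih.2.1 ih.2.2⟩
  exact fun n => (this n).1

theorem ps_map {S : Type*} [CommRing S] (f : R →+* S) (e0 e1 e2 : R) (n : ℕ) :
    f (ps e0 e1 e2 n) = ps (f e0) (f e1) (f e2) n := by
  refine ps_ind (fun n => f (ps e0 e1 e2 n) = ps (f e0) (f e1) (f e2) n) ?_ ?_ ?_ ?_ n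
  · simp only [ps_zero, map_ofNat]
  · simp only [ps_one]
  · simp only [ps_two, map_sub, map_mul, map_pow, map_ofNat]
  · intro n h1 h2 h3
    simp only [ps_rec, map_add, map_sub, map_mul, map_pow, h1, h2, h3]

theorem ps_smul (c e0 e1 e2 : R) (n : ℕ) :
    ps (c * e0) (c * e1) (c * e2) n = c ^ n * ps e0 e1 e2 n := by
  refine ps_ind (fun n => ps (c * e0) (c * e1) (c * e2) n = c ^ n * ps e0 e1 e2 n) ?_ ?_ ?_ ?_ n
  · simp [ps_zero]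
  · simp [ps_one]
  · simp only [ps_two]; ring
  · intro n h1 h2 h3
    simp only [ps_rec, h1, h2, h3]
    ring

theorem ps_eval (x y z : R) (h : x * y * z = 1) (n : ℕ) :
    ps 1 (x + y + z) (x * y + y * z + z * x) n = x ^ n + y ^ n + z ^ n := by
  refine ps_ind (fun n => ps 1 (x + y + z) (x * y + y * z + z * x) n = x ^ n + y ^ n + z ^ n)
    ?_ ?_ ?_ ?_ n
  · simp only [ps_zero]; ring
  · simp only [ps_one]; ring
  · simp only [ps_two]; ring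
  · intro n h1 h2 h3
    simp only [ps_rec, h1, h2, h3]
    linear_combination (-(x ^ n + y ^ n + z ^ n)) * h

theorem ps_inf (n : ℕ) (u v : R) : ps 0 u v (n + 1) = u ^ (n + 1) := by
  refine ps_ind (fun n => ps 0 u v (n + 1) = u ^ (n + 1)) ?_ ?_ ?_ ?_ n
  · simp [ps_one]
  · simp [ps_two]
  · rw [ps_rec, ps_two]; ring
  · intro n h1 h2 h3
    rw [show n + 3 + 1 = (n + 1) + 3 by ring, ps_rec, show n + 1 + 2 = n + 2 + 1 by ring, h3]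
    ring

/-- the equation of the curve, with `a = b + 2`. -/
def gg (b : ℕ) (e0 e1 e2 : R) : R :=
  e0 * ps e0 e1 e2 (2 * b + 3) + e0 ^ (b + 4) * ps e0 e2 e1 b
    + e0 ^ (b + 1) * ps e0 e2 e1 (b + 3) + e0 * ps e0 e2 e1 (2 * b + 3)
    + e0 ^ (b + 1) * ps e0 e1 e2 (b + 3) + e0 ^ (b + 4) * ps e0 e1 e2 b
    - ps e0 e1 e2 (b + 2) * ps e0 e2 e1 (b + 2)
    - e0 ^ 2 * (ps e0 e1 e2 (b + 1) * ps e0 e2 e1 (b + 1))
    - e0 ^ (2 * b + 2) * (e1 * e2) + 9 * e0 ^ (2 * b + 4)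

theorem gg_map {S : Type*} [CommRing S] (f : R →+* S) (b : ℕ) (e0 e1 e2 : R) :
    f (gg b e0 e1 e2) = gg b (f e0) (f e1) (f e2) := by
  simp only [gg, map_add, map_sub, map_mul, map_pow, ps_map, map_ofNat]

theorem gg_smul (b : ℕ) (c e0 e1 e2 : R) :
    gg b (c * e0) (c * e1) (c * e2) = c ^ (2 * b + 4) * gg b e0 e1 e2 := by
  simp only [gg, ps_smul]
  ring

theorem gg_inf (b : ℕ) (u v : R) : gg b 0 u v = - (u ^ (b + 2) * v ^ (b + 2)) := by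
  simp only [gg, ps_inf]
  ring

theorem gg_prod (b : ℕ) (x y z : R) (h : x * y * z = 1) :
    gg b 1 (x + y + z) (x * y + y * z + z * x) =
      (x * y ^ (b + 2) - 1) * (x * z ^ (b + 2) - 1) * (y * x ^ (b + 2) - 1)
        * (y * z ^ (b + 2) - 1) * (z * x ^ (b + 2) - 1) * (z * y ^ (b + 2) - 1) := by
  have hQ : ∀ n, ps 1 (x * y + y * z + z * x) (x + y + z) n =
      (y * z) ^ n + (z * x) ^ n + (x * y) ^ n := by
    intro n
    rw [← ps_eval (y * z) (z * x) (x * y) (by linear_combination (x * y * z + 1) * h)]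
    congr 1
    · ring
    · linear_combination (-(x + y + z)) * h
  have hx0 : x ^ b = x ^ (b + 2) * (y * z) ^ 2 := by
    calc x ^ b = x ^ b * (x * y * z) ^ 2 := by rw [h]; ring
      _ = _ := by ring
  have hy0 : y ^ b = y ^ (b + 2) * (z * x) ^ 2 := by
    calc y ^ b = y ^ b * (x * y * z) ^ 2 := by rw [h]; ring
      _ = _ := by ring
  have hz0 : z ^ b = z ^ (b + 2) * (x * y) ^ 2 := by
    calc z ^ b = z ^ b * (x * y * z) ^ 2 := by rw [h]; ring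
      _ = _ := by ring
  have hx1 : x ^ (b + 1) = x ^ (b + 2) * (y * z) := by
    calc x ^ (b + 1) = x ^ (b + 1) * (x * y * z) := by rw [h]; ring
      _ = _ := by ring
  have hy1 : y ^ (b + 1) = y ^ (b + 2) * (z * x) := by
    calc y ^ (b + 1) = y ^ (b + 1) * (x * y * z) := by rw [h]; ring
      _ = _ := by ring
  have hz1 : z ^ (b + 1) = z ^ (b + 2) * (x * y) := by
    calc z ^ (b + 1) = z ^ (b + 1) * (x * y * z) := by rw [h]; ring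
      _ = _ := by ring
  have hx3 : x ^ (b + 3) = x ^ (b + 2) * x := by ring
  have hy3 : y ^ (b + 3) = y ^ (b + 2) * y := by ring
  have hz3 : z ^ (b + 3) = z ^ (b + 2) * z := by ring
  have hx4 : x ^ (2 * b + 3) = (x ^ (b + 2)) ^ 2 * (y * z) := by
    calc x ^ (2 * b + 3) = x ^ (2 * b + 3) * (x * y * z) := by rw [h]; ring
      _ = _ := by ring
  have hy4 : y ^ (2 * b + 3) = (y ^ (b + 2)) ^ 2 * (z * x) := by
    calc y ^ (2 * b + 3) = y ^ (2 * b + 3) * (x * y * z) := by rw [h]; ring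
      _ = _ := by ring
  have hz4 : z ^ (2 * b + 3) = (z ^ (b + 2)) ^ 2 * (x * y) := by
    calc z ^ (2 * b + 3) = z ^ (2 * b + 3) * (x * y * z) := by rw [h]; ring
      _ = _ := by ring
  have hH : x ^ (b + 2) * y ^ (b + 2) * z ^ (b + 2) = 1 := by
    rw [← mul_pow, ← mul_pow, h, one_pow]
  simp only [gg, hQ, ps_eval x y z h, mul_pow, one_pow]
  rw [hx4, hy4, hz4, hx3, hy3, hz3, hx1, hy1, hz1, hx0, hy0, hz0]
  generalize x ^ (b + 2) = X at *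
  generalize y ^ (b + 2) = Y at *
  generalize z ^ (b + 2) = Z at *
  linear_combination ((-3) + (1)*Y*Z^2 + (1)*Y^2*Z + (1)*X*Z^2 + (-1)*X*Y*Z + (1)*X*Y^2 + (1)*X^2*Z + (1)*X^2*Y +
      (-1)*X^2*Y^2*Z^2 + (-1)*z*X*Y*Z^2 + (-1)*z*X*Y^2*Z + (-1)*z*X^2*Y*Z + (1)*z^2*X*Y +
      (-1)*y*X*Y*Z^2 + (-1)*y*X*Y^2*Z + (-1)*y*X^2*Y*Z + (1)*y*z*X^2*Y*Z^2 + (1)*y*z*X^2*Y^2*Z +
      (-1)*y*z^2*X^2*Y + (1)*y^2*X*Z + (-1)*y^2*z*X^2*Z + (-1)*x*X*Y*Z^2 + (-1)*x*X*Y^2*Z +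
      (-1)*x*X^2*Y*Z + (1)*x*z*X*Y^2*Z^2 + (1)*x*z*X^2*Y^2*Z + (-1)*x*z^2*X*Y^2 +
      (1)*x*y*X*Y^2*Z^2 + (1)*x*y*X^2*Y*Z^2 + (-3)*x*y*z*X*Y*Z + (-1)*x*y*z*X^2*Y^2*Z^2 +
      (1)*x*y*z^3*X*Y + (-1)*x*y^2*X*Z^2 + (1)*x*y^3*z*X*Z + (1)*x^2*Y*Z + (-1)*x^2*z*Y^2*Z +
      (-1)*x^2*y*Y*Z^2 + (1)*x^3*y*z*Y*Z) * h
    + ((-5) + (-1)*X*Y*Z + (-1)*z*Z + (-1)*z*Y + (-1)*z*X + (-1)*y*Z + (-1)*y*Y + (-1)*y*X +
      (1)*y*z*X*Z + (1)*y*z*X*Y + (1)*y*z^2 + (1)*y^2*z + (-1)*y^2*z^2*X + (-1)*x*Z + (-1)*x*Y +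
      (-1)*x*X + (1)*x*z*Y*Z + (1)*x*z*X*Y + (1)*x*z^2 + (1)*x*y*Y*Z + (1)*x*y*X*Z + (1)*x*y^2 +
      (1)*x^2*z + (-1)*x^2*z^2*Y + (1)*x^2*y + (-1)*x^2*y^2*Z) * hH

end Ring

end Q36.Ch
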