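import Mathlib

set_option autoImplicit false

namespace Q36.Ch

open MvPolynomial
open scoped LinearAlgebra.Projectivization

/-- The set of singular points of the plane curve with equation `F` (a form in three variables). -/
def singSet (F : MvPolynomial (Fin 3) ℂ) : Set (ℙ ℂ (Fin 3 → ℂ)) :=
  {p | eval p.rep F = 0 ∧ ∀ i : Fin 3, eval p.rep (pderiv i F) = 0}

/-- The multiplicity of the plane curve `F = 0` at the point `p`: the least degree of a monomial
that occurs in the expansion of `F` at a representative of `p`. -/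
noncomputable def mult (F : MvPolynomial (Fin 3) ℂ) (p : ℙ ℂ (Fin 3 → ℂ)) : ℕ :=
  sInf {k : ℕ | ∃ s ∈ (aeval (fun i : Fin 3 => (C (p.rep i) + X i : MvPolynomial (Fin 3) ℂ)) F).support,
    ∑ j : Fin 3, s j = k}

/-- The `h`-constant of the plane curve of degree `d` with equation `F = 0`. -/
noncomputable def hconst (d : ℕ) (F : MvPolynomial (Fin 3) ℂ) : ℝ :=
  ((d : ℝ) ^ 2 - ∑ᶠ p ∈ singSet F, ((mult F p : ℕ) : ℝ) ^ 2) / ((singSet F).ncard : ℝ)

end Q36.Ch
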