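import Mathlib

set_option autoImplicit false

namespace Q36.Ch

/-- first coordinate of the parametrization. -/
noncomputable def E1 (a : ℤ) (t : ℂˣ) : ℂ :=
  ((t ^ a : ℂˣ) : ℂ) + ((t⁻¹ : ℂˣ) : ℂ) + ((t ^ (1 - a) : ℂˣ) : ℂ)

/-- second coordinate of the parametrization. -/
noncomputable def E2 (a : ℤ) (t : ℂˣ) : ℂ :=
  ((t ^ (-a) : ℂˣ) : ℂ) + (t : ℂ) + ((t ^ (a - 1) : ℂˣ) : ℂ)

theorem xyz (a : ℤ) (t : ℂˣ) :
    ((t ^ a : ℂˣ) : ℂ) * ((t⁻¹ : ℂˣ) : ℂ) * ((t ^ (1 - a) : ℂˣ) : ℂ) = 1 := by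
  rw [← Units.val_mul, ← Units.val_mul]
  have : t ^ a * t⁻¹ * t ^ (1 - a) = 1 := by
    rw [← zpow_neg_one, ← zpow_add, ← zpow_add]
    rw [show a + -1 + (1 - a) = 0 by ring, zpow_zero]
  rw [this, Units.val_one]

theorem E2_eq (a : ℤ) (t : ℂˣ) : E2 a t =
    ((t ^ a : ℂˣ) : ℂ) * ((t⁻¹ : ℂˣ) : ℂ) + ((t⁻¹ : ℂˣ) : ℂ) * ((t ^ (1 - a) : ℂˣ) : ℂ)
      + ((t ^ (1 - a) : ℂˣ) : ℂ) * ((t ^ a : ℂˣ) : ℂ) := by
  rw [E2, ← Units.val_mul, ← Units.val_mul, ← Units.val_mul]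
  have h1 : t ^ a * t⁻¹ = t ^ (a - 1) := by rw [← zpow_neg_one, ← zpow_add]; rfl
  have h2 : t⁻¹ * t ^ (1 - a) = t ^ (-a) := by
    rw [← zpow_neg_one, ← zpow_add]; congr 1; ring
  have h3 : t ^ (1 - a) * t ^ a = t := by
    rw [← zpow_add, show 1 - a + a = 1 by ring, zpow_one]
  rw [h1, h2, h3]
  ring

theorem fibre (a : ℤ) (t u : ℂˣ) (h1 : E1 a t = E1 a u) (h2 : E2 a t = E2 a u) :
    u = t ∨ u = t ^ (-a) ∨ u = t ^ (a - 1) := by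
  rw [E2_eq, E2_eq] at h2
  rw [E1, E1] at h1
  have k1 := xyz a t
  have k2 := xyz a u
  have key : (((u⁻¹ : ℂˣ) : ℂ) - ((t ^ a : ℂˣ) : ℂ)) * (((u⁻¹ : ℂˣ) : ℂ) - ((t⁻¹ : ℂˣ) : ℂ)) *
      (((u⁻¹ : ℂˣ) : ℂ) - ((t ^ (1 - a) : ℂˣ) : ℂ)) = 0 := by
    generalize ((t ^ a : ℂˣ) : ℂ) = x at *
    generalize ((t⁻¹ : ℂˣ) : ℂ) = y at *
    generalize ((t ^ (1 - a) : ℂˣ) : ℂ) = z at *
    generalize ((u ^ a : ℂˣ) : ℂ) = x' at *
    generalize ((u⁻¹ : ℂˣ) : ℂ) = y' at *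
    generalize ((u ^ (1 - a) : ℂˣ) : ℂ) = z' at *
    linear_combination (-y' ^ 2) * h1 + y' * h2 - k1 + k2
  rcases mul_eq_zero.mp key with h | h
  · rcases mul_eq_zero.mp h with h | h
    · right; left
      have h3 : u⁻¹ = t ^ a := Units.ext (sub_eq_zero.mp h)
      rw [zpow_neg, ← h3, inv_inv]
    · left
      have h3 : u⁻¹ = t⁻¹ := Units.ext (sub_eq_zero.mp h)
      exact inv_injective h3
  · right; right
    have h3 : u⁻¹ = t ^ (1 - a) := Units.ext (sub_eq_zero.mp h)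
    rw [show a - 1 = -(1 - a) by ring, zpow_neg, ← h3, inv_inv]

theorem eq_one_of_eq_zpow {t : ℂˣ} {k : ℤ} (h : t = t ^ k) : t ^ (k - 1) = 1 := by
  rw [zpow_sub_one, ← h, mul_inv_cancel]

theorem zneg_one {t : ℂˣ} {k : ℤ} (h : t ^ k = 1) : t ^ (-k) = 1 := by
  rw [zpow_neg, h, inv_one]

theorem special (a : ℤ) (t u : ℂˣ) (h1 : E1 a t = E1 a u) (h2 : E2 a t = E2 a u) (hne : u ≠ t) :
    (u = t ^ (-a) ∧ t ^ (a ^ 2 - 1) = 1) ∨ (u = t ^ (a - 1) ∧ t ^ (a ^ 2 - 2 * a) = 1) ∨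
      t ^ (a ^ 2 - a + 1) = 1 := by
  have f1 := fibre a t u h1 h2
  have f2 := fibre a u t h1.symm h2.symm
  rcases f1 with h | h | h
  · exact absurd h hne
  · rcases f2 with g | g | g
    · exact absurd g.symm hne
    · left
      refine ⟨h, ?_⟩
      rw [h, ← zpow_mul] at g
      have := eq_one_of_eq_zpow g
      rw [← this]; congr 1; ring
    · right; right
      rw [h, ← zpow_mul] at g
      have := zneg_one (eq_one_of_eq_zpow g)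
      rw [← this]; congr 1; ring
  · rcases f2 with g | g | g
    · exact absurd g.symm hne
    · right; right
      rw [h, ← zpow_mul] at g
      have := zneg_one (eq_one_of_eq_zpow g)
      rw [← this]; congr 1; ring
    · right; left
      refine ⟨h, ?_⟩
      rw [h, ← zpow_mul] at g
      have := eq_one_of_eq_zpow g
      rw [← this]; congr 1; ring

/-- the three exponentials of a parameter. -/
noncomputable def tx (a : ℤ) (t : ℂˣ) : ℂ := ((t ^ a : ℂˣ) : ℂ)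
noncomputable def ty (t : ℂˣ) : ℂ := ((t⁻¹ : ℂˣ) : ℂ)
noncomputable def tz (a : ℤ) (t : ℂˣ) : ℂ := ((t ^ (1 - a) : ℂˣ) : ℂ)

theorem zpow_congr {t : ℂˣ} {k l m : ℤ} (h : t ^ m = 1) (hk : ∃ c : ℤ, k - l = m * c) :
    t ^ k = t ^ l := by
  obtain ⟨c, hc⟩ := hk
  rw [show k = l + m * c by linarith, zpow_add, zpow_mul, h, one_zpow, mul_one]

/-- first kind of double point. -/
theorem permA (a : ℤ) (t : ℂˣ) (h : t ^ (a ^ 2 - 1) = 1) :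
    tx a (t ^ (-a)) = ty t ∧ ty (t ^ (-a)) = tx a t ∧ tz a (t ^ (-a)) = tz a t := by
  refine ⟨?_, ?_, ?_⟩
  · rw [tx, ty, ← zpow_mul, ← zpow_neg_one]
    congr 1
    exact zpow_congr h ⟨-1, by ring⟩
  · rw [ty, tx, ← zpow_neg_one, ← zpow_mul]
    congr 1
    exact zpow_congr h ⟨0, by ring⟩
  · rw [tz, tz, ← zpow_mul]
    congr 1
    exact zpow_congr h ⟨1, by ring⟩

/-- second kind of double point. -/
theorem permB (a : ℤ) (t : ℂˣ) (h : t ^ (a ^ 2 - 2 * a) = 1) :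
    tx a (t ^ (a - 1)) = tx a t ∧ ty (t ^ (a - 1)) = tz a t ∧ tz a (t ^ (a - 1)) = ty t := by
  refine ⟨?_, ?_, ?_⟩
  · rw [tx, tx, ← zpow_mul]
    congr 1
    exact zpow_congr h ⟨1, by ring⟩
  · rw [ty, tz, ← zpow_neg_one, ← zpow_mul]
    congr 1
    exact zpow_congr h ⟨0, by ring⟩
  · rw [tz, ty, ← zpow_mul, ← zpow_neg_one]
    congr 1
    exact zpow_congr h ⟨-1, by ring⟩

/-- triple points. -/
theorem permC (a : ℤ) (t : ℂˣ) (h : t ^ (a ^ 2 - a + 1) = 1) :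
    tx a (t ^ (-a)) = tz a t ∧ ty (t ^ (-a)) = tx a t ∧ tz a (t ^ (-a)) = ty t := by
  refine ⟨?_, ?_, ?_⟩
  · rw [tx, tz, ← zpow_mul]
    congr 1
    exact zpow_congr h ⟨-1, by ring⟩
  · rw [ty, tx, ← zpow_neg_one, ← zpow_mul]
    congr 1
    exact zpow_congr h ⟨0, by ring⟩
  · rw [tz, ty, ← zpow_mul, ← zpow_neg_one]
    congr 1
    exact zpow_congr h ⟨1, by ring⟩

theorem permC' (a : ℤ) (t : ℂˣ) (h : t ^ (a ^ 2 - a + 1) = 1) :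
    tx a (t ^ (a - 1)) = ty t ∧ ty (t ^ (a - 1)) = tz a t ∧ tz a (t ^ (a - 1)) = tx a t := by
  refine ⟨?_, ?_, ?_⟩
  · rw [tx, ty, ← zpow_mul, ← zpow_neg_one]
    congr 1
    exact zpow_congr h ⟨1, by ring⟩
  · rw [ty, tz, ← zpow_neg_one, ← zpow_mul]
    congr 1
    exact zpow_congr h ⟨0, by ring⟩
  · rw [tz, tx, ← zpow_mul]
    congr 1
    exact zpow_congr h ⟨-1, by ring⟩

theorem E1_xyz (a : ℤ) (t : ℂˣ) : E1 a t = tx a t + ty t + tz a t := rfl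

theorem E2_xyz (a : ℤ) (t : ℂˣ) : E2 a t = tx a t * ty t + ty t * tz a t + tz a t * tx a t :=
  E2_eq a t

theorem xyz' (a : ℤ) (t : ℂˣ) : tx a t * ty t * tz a t = 1 := xyz a t

end Q36.Ch
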