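import Mathlib
import Pool.Agent.Q36.Ch.Basic
import Pool.Agent.Q36.Ch.Par

set_option autoImplicit false

namespace Q36.Ch

open MvPolynomial

/-- homogeneity for evaluation. -/
theorem eval_smul {k : ℕ} {H : MvPolynomial (Fin 3) ℂ} (hH : H.IsHomogeneous k) (c : ℂ)
    (v : Fin 3 → ℂ) : eval (fun i => c * v i) H = c ^ k * eval v H := by
  rw [eval_eq, eval_eq, Finset.mul_sum]
  refine Finset.sum_congr rfl ?_
  intro s hs
  have h1 : ∑ i, s i = k := by
    have := hH (mem_support_iff.mp hs)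
    rw [Finsupp.weight_apply, Finsupp.sum_fintype _ _ (by simp)] at this
    simpa using this
  have h2 : ∀ (w : Fin 3 → ℂ), ∏ i ∈ s.support, w i ^ s i = ∏ i, w i ^ s i := by
    intro w
    apply Finset.prod_subset (Finset.subset_univ _)
    intro i _ hi
    rw [Finsupp.notMem_support_iff.mp hi, pow_zero]
  rw [h2, h2]
  simp only [mul_pow]
  rw [Finset.prod_mul_distrib, Finset.prod_pow_eq_pow_sum, h1]
  ring

/-- the point `(1, e1, e2)` of a parameter. -/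
noncomputable def pv (a : ℤ) (t : ℂˣ) : Fin 3 → ℂ := ![1, E1 a t, E2 a t]

/-- polynomial parametrization, `a = b + 2`. -/
noncomputable def Phi (b : ℕ) : Fin 3 → Polynomial ℂ :=
  ![Polynomial.X ^ (b + 2), Polynomial.X ^ (2 * b + 4) + Polynomial.X ^ (b + 1) + Polynomial.X,
    1 + Polynomial.X ^ (b + 3) + Polynomial.X ^ (2 * b + 3)]

theorem eval_Phi (b : ℕ) (t : ℂˣ) (i : Fin 3) :
    (Phi b i).eval (t : ℂ) = (t : ℂ) ^ (b + 2) * pv ((b : ℤ) + 2) t i := by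
  have ht : (t : ℂ) ≠ 0 := t.ne_zero
  have h1 : (t : ℂ) ^ (b + 2) * ((t ^ ((b : ℤ) + 2) : ℂˣ) : ℂ) = (t : ℂ) ^ (2 * b + 4) := by
    rw [show ((b : ℤ) + 2) = ((b + 2 : ℕ) : ℤ) by push_cast; ring, zpow_natCast, Units.val_pow_eq_pow_val]
    ring
  have h2 : (t : ℂ) ^ (b + 2) * ((t⁻¹ : ℂˣ) : ℂ) = (t : ℂ) ^ (b + 1) := by
    rw [Units.val_inv_eq_inv_val]
    field_simp
    ring
  have h3 : (t : ℂ) ^ (b + 2) * ((t ^ (1 - ((b : ℤ) + 2)) : ℂˣ) : ℂ) = (t : ℂ) := by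
    rw [show (1 - ((b : ℤ) + 2)) = -((b + 1 : ℕ) : ℤ) by push_cast; ring, zpow_neg, zpow_natCast,
      Units.val_inv_eq_inv_val, Units.val_pow_eq_pow_val]
    field_simp
    ring
  have h4 : (t : ℂ) ^ (b + 2) * ((t ^ (-((b : ℤ) + 2)) : ℂˣ) : ℂ) = 1 := by
    rw [show (-((b : ℤ) + 2)) = -((b + 2 : ℕ) : ℤ) by push_cast; ring, zpow_neg, zpow_natCast,
      Units.val_inv_eq_inv_val, Units.val_pow_eq_pow_val]
    field_simp
  have h5 : (t : ℂ) ^ (b + 2) * ((t ^ (((b : ℤ) + 2) - 1) : ℂˣ) : ℂ) = (t : ℂ) ^ (2 * b + 3) := by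
    rw [show (((b : ℤ) + 2) - 1) = ((b + 1 : ℕ) : ℤ) by push_cast; ring, zpow_natCast,
      Units.val_pow_eq_pow_val]
    ring
  fin_cases i
  · simp [Phi, pv]
  · simp only [Phi, pv, E1, Fin.mk_one, Matrix.cons_val_one, Matrix.cons_val_zero]
    simp only [Polynomial.eval_add, Polynomial.eval_pow, Polynomial.eval_X]
    rw [mul_add, mul_add, h1, h2, h3]
  · simp only [Phi, pv, E2, Fin.reduceFinMk, Matrix.cons_val]
    simp only [Polynomial.eval_add, Polynomial.eval_pow, Polynomial.eval_X, Polynomial.eval_one]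
    rw [mul_add, mul_add, h4, h5]
    ring

theorem eval_aeval_Phi {k : ℕ} {H : MvPolynomial (Fin 3) ℂ} (hH : H.IsHomogeneous k) (b : ℕ)
    (t : ℂˣ) : (aeval (Phi b) H).eval (t : ℂ) =
      ((t : ℂ) ^ (b + 2)) ^ k * eval (pv ((b : ℤ) + 2) t) H := by
  have h1 : (aeval (Phi b) H).eval (t : ℂ) = eval (fun i => (Phi b i).eval (t : ℂ)) H := by
    have : ((Polynomial.aeval (t : ℂ)).comp (aeval (Phi b)) : MvPolynomial (Fin 3) ℂ →ₐ[ℂ] ℂ) =
        aeval (fun i => (Phi b i).eval (t : ℂ)) := by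
      apply MvPolynomial.algHom_ext
      intro i
      simp
    have h2 := DFunLike.congr_fun this H
    simp only [AlgHom.comp_apply] at h2
    rw [Polynomial.coe_aeval_eq_eval] at h2
    rw [h2, aeval_eq_eval]
  rw [h1]
  rw [show (fun i => (Phi b i).eval (t : ℂ)) = fun i => (t : ℂ) ^ (b + 2) * pv ((b : ℤ) + 2) t i from
    funext fun i => eval_Phi b t i]
  exact eval_smul hH _ _

theorem eq_zero_of_units {p : Polynomial ℂ} (h : ∀ t : ℂˣ, p.eval (t : ℂ) = 0) : p = 0 := by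
  have h1 : Polynomial.X * p = 0 := by
    apply Polynomial.funext
    intro r
    by_cases hr : r = 0
    · simp [hr]
    · have := h (Units.mk0 r hr)
      simp only [Units.val_mk0] at this
      simp [this]
  rcases mul_eq_zero.mp h1 with h2 | h2
  · exact absurd h2 Polynomial.X_ne_zero
  · exact h2

theorem aeval_Phi_eq_zero_iff {k : ℕ} {H : MvPolynomial (Fin 3) ℂ} (hH : H.IsHomogeneous k) (b : ℕ) :
    aeval (Phi b) H = 0 ↔ ∀ t : ℂˣ, eval (pv ((b : ℤ) + 2) t) H = 0 := by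
  constructor
  · intro h t
    have h1 := eval_aeval_Phi hH b t
    rw [h, Polynomial.eval_zero] at h1
    have h2 : ((t : ℂ) ^ (b + 2)) ^ k ≠ 0 := pow_ne_zero _ (pow_ne_zero _ t.ne_zero)
    exact (mul_eq_zero.mp h1.symm).resolve_left h2
  · intro h
    apply eq_zero_of_units
    intro t
    rw [eval_aeval_Phi hH b t, h t, mul_zero]

/-- the equation of the curve. -/
noncomputable def GG (b : ℕ) : MvPolynomial (Fin 3) ℂ := gg b (X 0) (X 1) (X 2)

theorem eval_GG (b : ℕ) (v : Fin 3 → ℂ) : eval v (GG b) = gg b (v 0) (v 1) (v 2) := by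
  rw [GG, gg_map, eval_X, eval_X, eval_X]

theorem GG_pv (b : ℕ) (t : ℂˣ) : eval (pv ((b : ℤ) + 2) t) (GG b) = 0 := by
  rw [eval_GG]
  have h0 : pv ((b : ℤ) + 2) t 0 = 1 := rfl
  have h1 : pv ((b : ℤ) + 2) t 1 = tx ((b : ℤ) + 2) t + ty t + tz ((b : ℤ) + 2) t := rfl
  have h2 : pv ((b : ℤ) + 2) t 2 = tx ((b : ℤ) + 2) t * ty t + ty t * tz ((b : ℤ) + 2) t + tz ((b : ℤ) + 2) t * tx ((b : ℤ) + 2) t := E2_xyz _ t
  rw [h0, h1, h2, gg_prod b _ _ _ (xyz' _ t)]
  have h3 : tx ((b : ℤ) + 2) t * (ty t) ^ (b + 2) = 1 := by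
    rw [tx, ty, ← Units.val_pow_eq_pow_val, ← Units.val_mul]
    rw [show ((b : ℤ) + 2) = ((b + 2 : ℕ) : ℤ) by push_cast; ring, zpow_natCast, inv_pow,
      mul_inv_cancel, Units.val_one]
  rw [h3]
  ring

theorem ps_homog (i j k : Fin 3) (n : ℕ) :
    (ps (X i : MvPolynomial (Fin 3) ℂ) (X j) (X k) n).IsHomogeneous n := by
  refine ps_ind (fun n => (ps (X i : MvPolynomial (Fin 3) ℂ) (X j) (X k) n).IsHomogeneous n) ?_ ?_ ?_ ?_ n
  · rw [ps_zero]
    exact isHomogeneous_C (Fin 3) (3 : ℂ)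
  · rw [ps_one]
    exact isHomogeneous_X ℂ j
  · rw [ps_two]
    refine IsHomogeneous.sub ?_ ?_
    · exact (isHomogeneous_X ℂ j).pow 2
    · rw [mul_assoc]
      exact (isHomogeneous_C (Fin 3) (2 : ℂ)).mul ((isHomogeneous_X ℂ i).mul (isHomogeneous_X ℂ k))
  · intro n h1 h2 h3
    rw [ps_rec]
    refine IsHomogeneous.add (IsHomogeneous.sub ?_ ?_) ?_
    · have := (isHomogeneous_X ℂ j).mul h3
      rwa [show 1 + (n + 2) = n + 3 by ring] at this
    · have := ((isHomogeneous_X ℂ i).mul (isHomogeneous_X ℂ k)).mul h2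
      rwa [show 1 + 1 + (n + 1) = n + 3 by ring] at this
    · have := ((isHomogeneous_X ℂ i).pow 3).mul h1
      rwa [show 1 * 3 + n = n + 3 by ring] at this

theorem GG_homog (b : ℕ) : (GG b).IsHomogeneous (2 * b + 4) := by
  have hX : ∀ n, ((X 0 : MvPolynomial (Fin 3) ℂ) ^ n).IsHomogeneous n := by
    intro n
    have := (isHomogeneous_X ℂ (0 : Fin 3)).pow n
    rwa [one_mul] at this
  have key : ∀ {P : MvPolynomial (Fin 3) ℂ} {m n : ℕ}, P.IsHomogeneous m → m = n → P.IsHomogeneous n := by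
    intro P m n h e
    rw [← e]; exact h
  rw [GG, gg]
  refine IsHomogeneous.add (IsHomogeneous.sub (IsHomogeneous.sub (IsHomogeneous.sub
    (IsHomogeneous.add (IsHomogeneous.add (IsHomogeneous.add (IsHomogeneous.add
    (IsHomogeneous.add ?_ ?_) ?_) ?_) ?_) ?_) ?_) ?_) ?_) ?_
  · exact key ((isHomogeneous_X ℂ (0 : Fin 3)).mul (ps_homog 0 1 2 _)) (by ring)
  · exact key ((hX _).mul (ps_homog 0 2 1 _)) (by ring)
  · exact key ((hX _).mul (ps_homog 0 2 1 _)) (by ring)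
  · exact key ((isHomogeneous_X ℂ (0 : Fin 3)).mul (ps_homog 0 2 1 _)) (by ring)
  · exact key ((hX _).mul (ps_homog 0 1 2 _)) (by ring)
  · exact key ((hX _).mul (ps_homog 0 1 2 _)) (by ring)
  · exact key ((ps_homog 0 1 2 _).mul (ps_homog 0 2 1 _)) (by ring)
  · exact key ((hX _).mul ((ps_homog 0 1 2 _).mul (ps_homog 0 2 1 _))) (by ring)
  · exact key ((hX _).mul ((isHomogeneous_X ℂ (1 : Fin 3)).mul (isHomogeneous_X ℂ (2 : Fin 3)))) (by ring)
  · exact key ((isHomogeneous_C (Fin 3) (9 : ℂ)).mul (hX _)) (by ring)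

theorem GG_ne (b : ℕ) : GG b ≠ 0 := by
  intro h
  have h1 := eval_GG b ![0, 1, 1]
  rw [h, map_zero] at h1
  simp only [Matrix.cons_val_zero, Matrix.cons_val_one, Matrix.cons_val] at h1
  rw [gg_inf] at h1
  norm_num at h1

end Q36.Ch
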