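import Mathlib
import Pool.Agent.Q36.Ch.Curve

set_option autoImplicit false

namespace Q36.Ch

open MvPolynomial

/-- `t ^ (b + 2) * (E1 + E2)` as a polynomial. -/
noncomputable def lp (b : ℕ) : Polynomial ℂ := Phi b 1 + Phi b 2

/-- pull back of the line `e1 + e2 = s`. -/
noncomputable def ls (b : ℕ) (s : ℂ) : Polynomial ℂ := lp b - Polynomial.C s * Polynomial.X ^ (b + 2)

noncomputable def lq (b : ℕ) : Polynomial ℂ :=
  Polynomial.X * Polynomial.derivative (lp b) - Polynomial.C ((b : ℂ) + 2) * lp b

theorem lp_eq (b : ℕ) : lp b = Polynomial.X ^ (2 * b + 4) + Polynomial.X ^ (b + 1) + Polynomial.X +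
    (1 + Polynomial.X ^ (b + 3) + Polynomial.X ^ (2 * b + 3)) := rfl

theorem lp_coeff_zero (b : ℕ) : (lp b).eval 0 = 1 := by
  rw [lp_eq]
  simp

theorem lq_ne (b : ℕ) : lq b ≠ 0 := by
  intro h
  have h1 : (lq b).eval 0 = 0 := by rw [h]; simp
  simp only [lq, Polynomial.eval_sub, Polynomial.eval_mul, Polynomial.eval_X, zero_mul,
    Polynomial.eval_C, lp_coeff_zero, mul_one, zero_sub] at h1
  have h2 : ((b + 2 : ℕ) : ℂ) = 0 := by
    push_cast
    linear_combination -h1
  exact (Nat.cast_ne_zero.mpr (by omega)) h2

theorem lq_ls (b : ℕ) (s : ℂ) : Polynomial.X * Polynomial.derivative (ls b s) -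
    Polynomial.C ((b : ℂ) + 2) * ls b s = lq b := by
  simp only [lq, ls, Polynomial.derivative_sub, Polynomial.derivative_C_mul,
    Polynomial.derivative_X_pow]
  have : (Polynomial.X : Polynomial ℂ) ^ (b + 2) = Polynomial.X * Polynomial.X ^ (b + 2 - 1) := by
    rw [← pow_succ']
    congr 1
  rw [this]
  push_cast
  simp only [map_add, Polynomial.C_ofNat, map_natCast]
  ring

theorem ls_natDegree (b : ℕ) (s : ℂ) : (ls b s).natDegree = 2 * b + 4 := by
  have h1 : ls b s = Polynomial.X ^ (2 * b + 4) + (Polynomial.X ^ (b + 1) + Polynomial.X +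
    (1 + Polynomial.X ^ (b + 3) + Polynomial.X ^ (2 * b + 3)) - Polynomial.C s * Polynomial.X ^ (b + 2)) := by
    rw [ls, lp_eq]; ring
  rw [h1]
  rw [Polynomial.natDegree_add_eq_left_of_natDegree_lt]
  · simp
  · rw [Polynomial.natDegree_X_pow]
    refine Nat.lt_succ_of_le ?_
    show _ ≤ 2 * b + 3
    compute_degree
    all_goals omega

theorem eval_lp (b : ℕ) (t : ℂˣ) : (lp b).eval (t : ℂ) =
    (t : ℂ) ^ (b + 2) * (E1 ((b : ℤ) + 2) t + E2 ((b : ℤ) + 2) t) := by
  rw [lp, Polynomial.eval_add, eval_Phi, eval_Phi]
  simp only [pv, Matrix.cons_val_one, Matrix.cons_val_zero, Matrix.cons_val]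
  ring

theorem eval_ls (b : ℕ) (s : ℂ) (t : ℂˣ) : (ls b s).eval (t : ℂ) =
    (t : ℂ) ^ (b + 2) * (E1 ((b : ℤ) + 2) t + E2 ((b : ℤ) + 2) t - s) := by
  rw [ls, Polynomial.eval_sub, eval_lp]
  simp only [Polynomial.eval_mul, Polynomial.eval_C, Polynomial.eval_pow, Polynomial.eval_X]
  ring

/-- exceptional parameters. -/
noncomputable def bad (b : ℕ) : Finset ℂ :=
  (lq b).roots.toFinset ∪ ((Polynomial.X ^ (b ^ 2 + 4 * b + 3) - 1 : Polynomial ℂ).roots.toFinset ∪
    ((Polynomial.X ^ (b ^ 2 + 2 * b) - 1 : Polynomial ℂ).roots.toFinset ∪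
    (Polynomial.X ^ (b ^ 2 + 3 * b + 3) - 1 : Polynomial ℂ).roots.toFinset))

noncomputable def badS (b : ℕ) : Finset ℂ := (bad b).image fun t => (lp b).eval t / t ^ (b + 2)

theorem mem_roots_pow {n : ℕ} (hn : 0 < n) (t : ℂˣ) (h : t ^ (n : ℤ) = 1) :
    (t : ℂ) ∈ (Polynomial.X ^ n - 1 : Polynomial ℂ).roots.toFinset := by
  rw [Multiset.mem_toFinset, Polynomial.mem_roots]
  · simp only [Polynomial.IsRoot.def, Polynomial.eval_sub, Polynomial.eval_pow, Polynomial.eval_X,
      Polynomial.eval_one]
    rw [zpow_natCast] at h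
    have : ((t ^ n : ℂˣ) : ℂ) = 1 := by rw [h]; rfl
    rw [Units.val_pow_eq_pow_val] at this
    rw [this, sub_self]
  · exact (Polynomial.monic_X_pow_sub_C (1 : ℂ) hn.ne').ne_zero

theorem minimal (b : ℕ) (hb : 1 ≤ b) {k : ℕ} {H : MvPolynomial (Fin 3) ℂ} (hH : H.IsHomogeneous k)
    (hk : k < 2 * b + 4) (hv : ∀ t : ℂˣ, eval (pv ((b : ℤ) + 2) t) H = 0) : H = 0 := by
  have step : ∀ s : ℂ, s ∉ badS b → ∀ v : ℂ, eval ![1, s - v, v] H = 0 := by
    intro s hs
    -- roots of ls are good
    have hroot : ∀ t : ℂ, (ls b s).IsRoot t → t ≠ 0 ∧ t ∉ bad b := by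
      intro t ht
      have ht' : (ls b s).eval t = 0 := ht
      have h0 : t ≠ 0 := by
        rintro rfl
        rw [ls, Polynomial.eval_sub, lp_coeff_zero] at ht'
        simp at ht'
      refine ⟨h0, ?_⟩
      intro hbad
      apply hs
      rw [badS, Finset.mem_image]
      refine ⟨t, hbad, ?_⟩
      rw [ls, Polynomial.eval_sub] at ht'
      simp only [Polynomial.eval_mul, Polynomial.eval_C, Polynomial.eval_pow, Polynomial.eval_X] at ht'
      rw [div_eq_iff (pow_ne_zero _ h0)]
      exact sub_eq_zero.mp ht'
    have hls0 : ls b s ≠ 0 := by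
      intro h
      have := ls_natDegree b s
      rw [h] at this
      simp at this
    have hnodup : (ls b s).roots.Nodup := by
      rw [Multiset.nodup_iff_count_le_one]
      intro t
      rw [Polynomial.count_roots]
      by_contra hcon
      push Not at hcon
      rw [Polynomial.one_lt_rootMultiplicity_iff_isRoot hls0] at hcon
      have h1 := (hroot t hcon.1).2
      apply h1
      rw [bad, Finset.mem_union]
      left
      rw [Multiset.mem_toFinset, Polynomial.mem_roots (lq_ne b), ← lq_ls b s]
      have e1 : (ls b s).eval t = 0 := hcon.1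
      have e2 : (Polynomial.derivative (ls b s)).eval t = 0 := hcon.2
      simp only [Polynomial.IsRoot.def, Polynomial.eval_sub, Polynomial.eval_mul, e1, e2]
      ring
    have hcard : (ls b s).roots.toFinset.card = 2 * b + 4 := by
      rw [Multiset.toFinset_card_of_nodup hnodup,
        ← (IsAlgClosed.splits (ls b s)).natDegree_eq_card_roots, ls_natDegree]
    let hs' : Polynomial ℂ := aeval ![1, Polynomial.C s - Polynomial.X, Polynomial.X] H
    have heval : ∀ v, hs'.eval v = eval ![1, s - v, v] H := by
      intro v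
      have : ((Polynomial.aeval v).comp (aeval ![1, Polynomial.C s - Polynomial.X, Polynomial.X]) :
          MvPolynomial (Fin 3) ℂ →ₐ[ℂ] ℂ) = aeval ![1, s - v, v] := by
        apply MvPolynomial.algHom_ext
        intro i
        fin_cases i <;> simp
      have h2 := DFunLike.congr_fun this H
      simp only [AlgHom.comp_apply] at h2
      rw [Polynomial.coe_aeval_eq_eval] at h2
      rw [h2, aeval_eq_eval]
    have hdeg : hs'.natDegree ≤ k := by
      have := MvPolynomial.aeval_natDegree_le H (m := k) (n := 1) hH.totalDegree_le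
        ![1, Polynomial.C s - Polynomial.X, Polynomial.X] (by
          intro i
          fin_cases i
          · simp
          · simp only [Fin.mk_one, Matrix.cons_val_one, Matrix.cons_val_zero]
            compute_degree
          · simp)
      rw [mul_one] at this
      exact this
    have hzero : hs' = 0 := by
      by_contra hne
      let f : ℂ → ℂ := fun t => if h : t = 0 then 0 else E2 ((b : ℤ) + 2) (Units.mk0 t h)
      have hsub : (ls b s).roots.toFinset.image f ⊆ hs'.roots.toFinset := by
        intro w hw
        rw [Finset.mem_image] at hw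
        obtain ⟨t, ht, rfl⟩ := hw
        rw [Multiset.mem_toFinset, Polynomial.mem_roots hls0] at ht
        have h0 := (hroot t ht).1
        rw [Multiset.mem_toFinset, Polynomial.mem_roots hne, Polynomial.IsRoot.def, heval]
        simp only [f, h0, dif_neg, not_false_eq_true]
        have h1 := eval_ls b s (Units.mk0 t h0)
        rw [Units.val_mk0] at h1
        have h2 : (ls b s).eval t = 0 := ht
        rw [h2] at h1
        have h3 := (mul_eq_zero.mp h1.symm).resolve_left (pow_ne_zero _ h0)
        have h4 : s - E2 ((b : ℤ) + 2) (Units.mk0 t h0) = E1 ((b : ℤ) + 2) (Units.mk0 t h0) := by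
          linear_combination -h3
        rw [h4]
        exact hv (Units.mk0 t h0)
      have hinj : Set.InjOn f ((ls b s).roots.toFinset : Set ℂ) := by
        intro t ht u hu htu
        rw [Finset.mem_coe, Multiset.mem_toFinset, Polynomial.mem_roots hls0] at ht hu
        have h0 := hroot t ht
        have h0' := hroot u hu
        simp only [f, h0.1, h0'.1, dif_neg, not_false_eq_true] at htu
        have h1 := eval_ls b s (Units.mk0 t h0.1)
        have h1' := eval_ls b s (Units.mk0 u h0'.1)
        rw [Units.val_mk0] at h1 h1'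
        have h2 : (ls b s).eval t = 0 := ht
        have h2' : (ls b s).eval u = 0 := hu
        rw [h2] at h1
        rw [h2'] at h1'
        have h3 := (mul_eq_zero.mp h1.symm).resolve_left (pow_ne_zero _ h0.1)
        have h3' := (mul_eq_zero.mp h1'.symm).resolve_left (pow_ne_zero _ h0'.1)
        have h4 : E1 ((b : ℤ) + 2) (Units.mk0 t h0.1) = E1 ((b : ℤ) + 2) (Units.mk0 u h0'.1) := by
          linear_combination h3 - h3' - htu
        by_contra hne'
        have hne'' : Units.mk0 u h0'.1 ≠ Units.mk0 t h0.1 := by
          intro h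
          apply hne'
          have := congrArg (Units.val) h
          simpa using this.symm
        apply h0.2
        rw [bad, Finset.mem_union, Finset.mem_union, Finset.mem_union]
        right
        have key := special ((b : ℤ) + 2) (Units.mk0 t h0.1) (Units.mk0 u h0'.1) h4 htu hne''
        rcases key with h | h | h
        · left
          apply mem_roots_pow (by positivity) (Units.mk0 t h0.1)
          rw [← h.2]; congr 1; push_cast; ring
        · right; left
          apply mem_roots_pow (by positivity) (Units.mk0 t h0.1)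
          rw [← h.2]; congr 1; push_cast; ring
        · right; right
          apply mem_roots_pow (by positivity) (Units.mk0 t h0.1)
          rw [← h]; congr 1; push_cast; ring
      have h1 := Finset.card_le_card hsub
      rw [Finset.card_image_of_injOn hinj, hcard] at h1
      have h2 := Multiset.toFinset_card_le hs'.roots
      have h3 := Polynomial.card_roots' hs'
      omega
    intro v
    rw [← heval, hzero, Polynomial.eval_zero]
  -- conclude
  have hprod : X 0 * (∏ s ∈ badS b, (X 1 + X 2 - C s * X 0)) * H = 0 := by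
    apply MvPolynomial.funext
    intro r
    simp only [map_mul, map_prod, map_sub, map_add, eval_X, eval_C, map_zero]
    by_cases h0 : r 0 = 0
    · rw [h0]; ring
    · by_cases hs : (r 1 + r 2) / r 0 ∈ badS b
      · have : ∏ s ∈ badS b, (r 1 + r 2 - s * r 0) = 0 := by
          apply Finset.prod_eq_zero hs
          field_simp
          ring
        rw [this]; ring
      · have h1 := step _ hs (r 2 / r 0)
        have h2 := eval_smul hH (r 0) ![1, (r 1 + r 2) / r 0 - r 2 / r 0, r 2 / r 0]
        rw [h1, mul_zero] at h2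
        have h3 : (fun i => r 0 * (![1, (r 1 + r 2) / r 0 - r 2 / r 0, r 2 / r 0] : Fin 3 → ℂ) i) = r := by
          ext i
          fin_cases i
          · simp
          · simp only [Fin.mk_one, Matrix.cons_val_one, Matrix.cons_val_zero]
            field_simp
            ring
          · simp only [Fin.reduceFinMk, Matrix.cons_val]
            field_simp
        rw [h3] at h2
        rw [h2]; ring
  have hne : X 0 * (∏ s ∈ badS b, (X 1 + X 2 - C s * X 0)) ≠ (0 : MvPolynomial (Fin 3) ℂ) := by
    refine mul_ne_zero (X_ne_zero 0) (Finset.prod_ne_zero_iff.mpr ?_)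
    intro s _ h
    have := congrArg (eval ![0, 1, 0]) h
    simp at this
  exact (mul_eq_zero.mp hprod).resolve_left hne

end Q36.Ch
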