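import Mathlib
import Pool.Agent.Q36.Ch.Min
import Pool.Agent.Q36.Ch.Defs

set_option autoImplicit false

namespace Q36.Ch

open MvPolynomial
open scoped LinearAlgebra.Projectivization

/-- Factors of forms are forms. -/
theorem homog_of_dvd {F G : MvPolynomial (Fin 3) ℂ} {n : ℕ} (hF : F.IsHomogeneous n)
    (hF0 : F ≠ 0) (h : G ∣ F) : G.IsHomogeneous G.totalDegree := by
  obtain ⟨K, rfl⟩ := h
  have hG0 : G ≠ 0 := left_ne_zero_of_mul hF0
  have hK0 : K ≠ 0 := right_ne_zero_of_mul hF0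
  have hle : ∀ P : MvPolynomial (Fin 3) ℂ, P ≠ 0 →
      (P : MvPowerSeries (Fin 3) ℂ).order ≤ P.totalDegree := by
    intro P hP
    obtain ⟨d, hd⟩ := MvPolynomial.ne_zero_iff.1 hP
    have h1 : (P : MvPowerSeries (Fin 3) ℂ).order ≤ (d.degree : ℕ∞) :=
      MvPowerSeries.order_le (by simpa using hd)
    refine h1.trans ?_
    have h2 : d.degree ≤ P.totalDegree := by
      have := MvPolynomial.le_totalDegree (p := P) (s := d) (MvPolynomial.mem_support_iff.2 hd)
      simpa [Finsupp.degree_apply, Finsupp.sum] using this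
    exact_mod_cast h2
  have hmul : ((G * K : MvPolynomial (Fin 3) ℂ) : MvPowerSeries (Fin 3) ℂ).order =
      (G : MvPowerSeries (Fin 3) ℂ).order + (K : MvPowerSeries (Fin 3) ℂ).order := by
    rw [MvPolynomial.coe_mul, MvPowerSeries.order_mul]
  have hFo : (n : ℕ∞) ≤ ((G * K : MvPolynomial (Fin 3) ℂ) : MvPowerSeries (Fin 3) ℂ).order := by
    apply MvPowerSeries.nat_le_order
    intro d hd
    rw [MvPolynomial.coeff_coe]
    by_contra hne
    have := hF hne
    have h' : d.degree = n := by rw [← this, Finsupp.degree_eq_weight_one]; rfl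
    omega
  have hT : (G * K).totalDegree = n := hF.totalDegree hF0
  rw [MvPolynomial.totalDegree_mul_of_isDomain hG0 hK0] at hT
  have hGo := hle G hG0
  have hKo := hle K hK0
  rw [hmul] at hFo
  intro d hd
  have h1 : (G : MvPowerSeries (Fin 3) ℂ).order ≤ (d.degree : ℕ∞) :=
      MvPowerSeries.order_le (by simpa using hd)
  have h2 : d.degree ≤ G.totalDegree := by
      have := MvPolynomial.le_totalDegree (p := G) (s := d) (MvPolynomial.mem_support_iff.2 hd)
      simpa [Finsupp.degree_apply, Finsupp.sum] using this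
  have h3 : (n : ℕ∞) ≤ (d.degree : ℕ∞) + (K.totalDegree : ℕ∞) := hFo.trans (add_le_add h1 hKo)
  have h4 : n ≤ d.degree + K.totalDegree := by exact_mod_cast h3
  have h5 : d.degree = G.totalDegree := by omega
  rw [← h5, Finsupp.degree_eq_weight_one]
  rfl

theorem isUnit_of_deg {A : MvPolynomial (Fin 3) ℂ} (hA : A ≠ 0) (h : A.totalDegree = 0) : IsUnit A := by
  rw [totalDegree_eq_zero_iff_eq_C] at h
  rw [h]
  apply IsUnit.map C
  rw [isUnit_iff_ne_zero]
  intro h0
  apply hA
  rw [h, h0, C_0]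

theorem GG_irreducible (b : ℕ) (hb : 1 ≤ b) : Irreducible (GG b) := by
  constructor
  · intro h
    have h1 := h.map (eval (0 : Fin 3 → ℂ))
    rw [eval_GG] at h1
    simp only [Pi.zero_apply, gg_inf] at h1
    simp at h1
  · intro A B hAB
    have hne := GG_ne b
    have hA0 : A ≠ 0 := by rintro rfl; rw [zero_mul] at hAB; exact hne hAB
    have hB0 : B ≠ 0 := by rintro rfl; rw [mul_zero] at hAB; exact hne hAB
    have hA := homog_of_dvd (GG_homog b) hne ⟨B, hAB⟩
    have hB := homog_of_dvd (GG_homog b) hne ⟨A, by rw [hAB, mul_comm]⟩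
    have hdeg : A.totalDegree + B.totalDegree = 2 * b + 4 := by
      rw [← totalDegree_mul_of_isDomain hA0 hB0, ← hAB]
      exact (GG_homog b).totalDegree hne
    by_cases hA1 : A.totalDegree = 0
    · left; exact isUnit_of_deg hA0 hA1
    by_cases hB1 : B.totalDegree = 0
    · right; exact isUnit_of_deg hB0 hB1
    exfalso
    have h0 : aeval (Phi b) (GG b) = 0 :=
      (aeval_Phi_eq_zero_iff (GG_homog b) b).mpr (GG_pv b)
    rw [hAB, map_mul] at h0
    rcases mul_eq_zero.mp h0 with h | h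
    · exact hA0 (minimal b hb hA (by omega) ((aeval_Phi_eq_zero_iff hA b).mp h))
    · exact hB0 (minimal b hb hB (by omega) ((aeval_Phi_eq_zero_iff hB b).mp h))

theorem pv_ne (a : ℤ) (t : ℂˣ) : pv a t ≠ 0 := by
  intro h
  have := congrFun h 0
  simp [pv] at this

/-- the point of a parameter. -/
noncomputable def pt (a : ℤ) (t : ℂˣ) : ℙ ℂ (Fin 3 → ℂ) := Projectivization.mk ℂ (pv a t) (pv_ne a t)

theorem eval_rep {k : ℕ} {H : MvPolynomial (Fin 3) ℂ} (hH : H.IsHomogeneous k) (v : Fin 3 → ℂ)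
    (hv : v ≠ 0) : eval (Projectivization.mk ℂ v hv).rep H = 0 ↔ eval v H = 0 := by
  obtain ⟨c, hc⟩ := Projectivization.exists_smul_eq_mk_rep ℂ v hv
  have h1 : (fun i => (c : ℂ) * v i) = (Projectivization.mk ℂ v hv).rep := hc
  rw [← h1, eval_smul hH, mul_eq_zero]
  constructor
  · intro h
    rcases h with h | h
    · exact absurd h (pow_ne_zero _ c.ne_zero)
    · exact h
  · intro h; exact Or.inr h

theorem pt_eq (a : ℤ) (t u : ℂˣ) : pt a t = pt a u ↔ E1 a t = E1 a u ∧ E2 a t = E2 a u := by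
  rw [pt, pt, Projectivization.mk_eq_mk_iff']
  constructor
  · rintro ⟨c, hc⟩
    have h0 := congrFun hc 0
    have h1 := congrFun hc 1
    have h2 := congrFun hc 2
    simp [pv] at h0 h1 h2
    rw [h0] at h1 h2
    simp at h1 h2
    exact ⟨h1.symm, h2.symm⟩
  · rintro ⟨h1, h2⟩
    refine ⟨1, ?_⟩
    rw [one_smul, pv, pv, h1, h2]

theorem exists_roots (e1 e2 : ℂ) : ∃ x y z : ℂ, x + y + z = e1 ∧ x * y + y * z + z * x = e2 ∧
    x * y * z = 1 := by
  obtain ⟨x, hx⟩ : ∃ x : ℂ, x ^ 3 - e1 * x ^ 2 + e2 * x - 1 = 0 := by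
    have hd : (Polynomial.X ^ 3 - Polynomial.C e1 * Polynomial.X ^ 2 + Polynomial.C e2 * Polynomial.X - 1 :
        Polynomial ℂ).natDegree = 3 := by
      compute_degree!
    obtain ⟨x, hx⟩ := IsAlgClosed.exists_root (Polynomial.X ^ 3 - Polynomial.C e1 * Polynomial.X ^ 2 +
      Polynomial.C e2 * Polynomial.X - 1 : Polynomial ℂ) (by
        exact (Polynomial.natDegree_pos_iff_degree_pos.mp (by rw [hd]; norm_num)).ne')
    refine ⟨x, ?_⟩
    simpa [Polynomial.IsRoot.def] using hx
  obtain ⟨y, hy⟩ : ∃ y : ℂ, y ^ 2 - (e1 - x) * y + (e2 - x * (e1 - x)) = 0 := by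
    have hd : (Polynomial.X ^ 2 - Polynomial.C (e1 - x) * Polynomial.X + Polynomial.C (e2 - x * (e1 - x)) :
        Polynomial ℂ).natDegree = 2 := by
      compute_degree!
    obtain ⟨y, hy⟩ := IsAlgClosed.exists_root (Polynomial.X ^ 2 - Polynomial.C (e1 - x) * Polynomial.X +
      Polynomial.C (e2 - x * (e1 - x)) : Polynomial ℂ) (by
        exact (Polynomial.natDegree_pos_iff_degree_pos.mp (by rw [hd]; norm_num)).ne')
    refine ⟨y, ?_⟩
    simpa [Polynomial.IsRoot.def] using hy
  refine ⟨x, y, e1 - x - y, by ring, ?_, ?_⟩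
  · linear_combination -hy
  · linear_combination hx - x * hy

theorem tx_ty (b : ℕ) (t : ℂˣ) : tx ((b : ℤ) + 2) t * (ty t) ^ (b + 2) = 1 := by
  rw [tx, ty, ← Units.val_pow_eq_pow_val, ← Units.val_mul]
  rw [show ((b : ℤ) + 2) = ((b + 2 : ℕ) : ℤ) by push_cast; ring, zpow_natCast, inv_pow,
    mul_inv_cancel, Units.val_one]

theorem param_of_rel (b : ℕ) (x y z : ℂ) (h : x * y * z = 1) (h1 : x * y ^ (b + 2) = 1) :
    ∃ t : ℂˣ, E1 ((b : ℤ) + 2) t = x + y + z ∧ E2 ((b : ℤ) + 2) t = x * y + y * z + z * x := by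
  have hy : y ≠ 0 := by
    rintro rfl
    simp at h
  have hx : x ≠ 0 := by
    rintro rfl
    simp at h
  let t : ℂˣ := (Units.mk0 y hy)⁻¹
  have e2 : ty t = y := by
    simp only [ty, t, inv_inv, Units.val_mk0]
  have e1 : tx ((b : ℤ) + 2) t = x := by
    have k1 := tx_ty b t
    rw [e2] at k1
    have : (tx ((b : ℤ) + 2) t - x) * y ^ (b + 2) = 0 := by linear_combination k1 - h1
    exact sub_eq_zero.mp ((mul_eq_zero.mp this).resolve_right (pow_ne_zero _ hy))
  have e3 : tz ((b : ℤ) + 2) t = z := by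
    have k1 := xyz' ((b : ℤ) + 2) t
    rw [e1, e2] at k1
    have : (tz ((b : ℤ) + 2) t - z) * (x * y) = 0 := by linear_combination k1 - h
    exact sub_eq_zero.mp ((mul_eq_zero.mp this).resolve_right (mul_ne_zero hx hy))
  refine ⟨t, ?_, ?_⟩
  · rw [E1_xyz, e1, e2, e3]
  · rw [E2_xyz, e1, e2, e3]

theorem points (b : ℕ) (p : ℙ ℂ (Fin 3 → ℂ)) (hp : eval p.rep (GG b) = 0) :
    (∃ t : ℂˣ, p = pt ((b : ℤ) + 2) t) ∨
      p = Projectivization.mk ℂ ![0, 1, 0] (by intro h; simpa using congrFun h 1) ∨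
      p = Projectivization.mk ℂ ![0, 0, 1] (by intro h; simpa using congrFun h 2) := by
  have hrep := p.rep_nonzero
  rw [eval_GG] at hp
  by_cases h0 : p.rep 0 = 0
  · right
    rw [h0, gg_inf, neg_eq_zero, mul_eq_zero] at hp
    have hmk : ∀ (w : Fin 3 → ℂ) (hw : w ≠ 0) (c : ℂ), c • w = p.rep → p = Projectivization.mk ℂ w hw := by
      intro w hw c hc
      conv_lhs => rw [← p.mk_rep]
      rw [Projectivization.mk_eq_mk_iff']
      exact ⟨c, hc⟩
    rcases hp with h | h
    · right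
      have h1 : p.rep 1 = 0 := pow_eq_zero_iff (by omega : b + 2 ≠ 0) |>.mp h
      apply hmk _ _ (p.rep 2)
      ext i
      fin_cases i
      · simp [h0]
      · simp [h1]
      · simp
    · left
      have h1 : p.rep 2 = 0 := pow_eq_zero_iff (by omega : b + 2 ≠ 0) |>.mp h
      apply hmk _ _ (p.rep 1)
      ext i
      fin_cases i
      · simp [h0]
      · simp
      · simp [h1]
  · left
    obtain ⟨x, y, z, hx, hy, hz⟩ := exists_roots (p.rep 1 / p.rep 0) (p.rep 2 / p.rep 0)
    have h1 : gg b 1 (x + y + z) (x * y + y * z + z * x) = 0 := by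
      rw [hx, hy]
      have h2 := gg_smul b (p.rep 0) 1 (p.rep 1 / p.rep 0) (p.rep 2 / p.rep 0)
      rw [mul_one, mul_div_cancel₀ _ h0, mul_div_cancel₀ _ h0, hp] at h2
      exact (mul_eq_zero.mp h2.symm).resolve_left (pow_ne_zero _ h0)
    have hex : ∃ t : ℂˣ, E1 ((b : ℤ) + 2) t = x + y + z ∧
        E2 ((b : ℤ) + 2) t = x * y + y * z + z * x := by
      rw [gg_prod b x y z hz] at h1
      simp only [mul_eq_zero, sub_eq_zero] at h1
      rcases h1 with ((((h | h) | h) | h) | h) | h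
      · exact param_of_rel b x y z hz h
      · obtain ⟨t, ht1, ht2⟩ := param_of_rel b x z y (by linear_combination hz) h
        exact ⟨t, by rw [ht1]; ring, by rw [ht2]; ring⟩
      · obtain ⟨t, ht1, ht2⟩ := param_of_rel b y x z (by linear_combination hz) h
        exact ⟨t, by rw [ht1]; ring, by rw [ht2]; ring⟩
      · obtain ⟨t, ht1, ht2⟩ := param_of_rel b y z x (by linear_combination hz) h
        exact ⟨t, by rw [ht1]; ring, by rw [ht2]; ring⟩
      · obtain ⟨t, ht1, ht2⟩ := param_of_rel b z x y (by linear_combination hz) h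
        exact ⟨t, by rw [ht1]; ring, by rw [ht2]; ring⟩
      · obtain ⟨t, ht1, ht2⟩ := param_of_rel b z y x (by linear_combination hz) h
        exact ⟨t, by rw [ht1]; ring, by rw [ht2]; ring⟩
    obtain ⟨t, ht1, ht2⟩ := hex
    refine ⟨t, ?_⟩
    conv_lhs => rw [← p.mk_rep]
    rw [pt, Projectivization.mk_eq_mk_iff']
    refine ⟨p.rep 0, ?_⟩
    ext i
    fin_cases i
    · simp [pv]
    · simp only [pv, Fin.mk_one, Pi.smul_apply, Matrix.cons_val_one, Matrix.cons_val_zero, smul_eq_mul]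
      rw [ht1, hx]
      field_simp
    · simp only [pv, Fin.reduceFinMk, Pi.smul_apply, Matrix.cons_val, smul_eq_mul]
      rw [ht2, hy]
      field_simp

theorem singSet_finite (b : ℕ) (hb : 1 ≤ b) : (singSet (GG b)).Finite := by
  obtain ⟨i, hi⟩ : ∃ i, pderiv i (GG b) ≠ 0 := by
    by_contra hcon
    push Not at hcon
    have h1 := (GG_homog b).sum_X_mul_pderiv
    simp only [hcon, mul_zero, Finset.sum_const_zero] at h1
    have h2 := h1.symm
    rw [nsmul_eq_mul, mul_eq_zero] at h2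
    rcases h2 with h | h
    · have h3 : ((2 * b + 4 : ℕ) : MvPolynomial (Fin 3) ℂ) ≠ 0 := by
        exact_mod_cast (by omega : 2 * b + 4 ≠ 0)
      exact h3 h
    · exact GG_ne b h
  have hhom : (pderiv i (GG b)).IsHomogeneous (2 * b + 4 - 1) := (GG_homog b).pderiv
  have hne : aeval (Phi b) (pderiv i (GG b)) ≠ 0 := by
    intro h
    exact hi (minimal b hb hhom (by omega) ((aeval_Phi_eq_zero_iff hhom b).mp h))
  have hfin : {t : ℂˣ | eval (pv ((b : ℤ) + 2) t) (pderiv i (GG b)) = 0}.Finite := by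
    have h1 : ((aeval (Phi b) (pderiv i (GG b))).roots.toFinset : Set ℂ).Finite := Finset.finite_toSet _
    refine Set.Finite.subset (h1.preimage (f := (Units.val : ℂˣ → ℂ)) (Units.val_injective.injOn)) ?_
    intro t ht
    simp only [Set.mem_preimage, Finset.mem_coe, Multiset.mem_toFinset]
    rw [Polynomial.mem_roots hne, Polynomial.IsRoot.def, eval_aeval_Phi hhom]
    rw [Set.mem_ofPred_eq] at ht
    rw [ht, mul_zero]
  refine Set.Finite.subset ((hfin.image (pt ((b : ℤ) + 2))).union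
    (Set.toFinite {Projectivization.mk ℂ ![0, 1, 0] (by intro h; simpa using congrFun h 1),
      Projectivization.mk ℂ ![0, 0, 1] (by intro h; simpa using congrFun h 2)})) ?_
  intro p hp
  rcases points b p hp.1 with ⟨t, rfl⟩ | h | h
  · left
    refine ⟨t, ?_, rfl⟩
    have := hp.2 i
    rw [pt, eval_rep hhom] at this
    exact this
  · right; left; exact h
  · right; right; exact h

end Q36.Ch
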