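import Mathlib
import Pool.Agent.Q36.Ch.Irr

set_option autoImplicit false

namespace Q36.Ch

open MvPolynomial
open scoped LinearAlgebra.Projectivization

/-- translation. -/
noncomputable def tr (P : Fin 3 → ℂ) (F : MvPolynomial (Fin 3) ℂ) : MvPolynomial (Fin 3) ℂ :=
  aeval (fun i : Fin 3 => (C (P i) + X i : MvPolynomial (Fin 3) ℂ)) F

theorem tr_pderiv (P : Fin 3 → ℂ) (i : Fin 3) (F : MvPolynomial (Fin 3) ℂ) :
    pderiv i (tr P F) = tr P (pderiv i F) := by
  induction F using MvPolynomial.induction_on with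
  | C c => simp [tr]
  | add p q hp hq =>
    have h1 : tr P (p + q) = tr P p + tr P q := by simp [tr]
    have h2 : tr P (pderiv i p + pderiv i q) = tr P (pderiv i p) + tr P (pderiv i q) := by simp [tr]
    rw [h1, map_add, hp, hq, map_add, h2]
  | mul_X p n hp =>
    have h1 : tr P (p * X n) = tr P p * (C (P n) + X n) := by simp [tr]
    have h2 : tr P (p * pderiv i (X n) + X n * pderiv i p) =
        tr P p * pderiv i (X n) + (C (P n) + X n) * tr P (pderiv i p) := by
      classical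
      rw [pderiv_X]
      simp only [tr, map_add, map_mul, aeval_X]
      congr 2
      by_cases h : n = i
      · subst h; simp
      · simp [h]
    rw [h1, Derivation.leibniz, Derivation.leibniz, hp]
    simp only [smul_eq_mul]
    rw [h2, map_add, pderiv_C, zero_add]

theorem tr_const (P : Fin 3 → ℂ) (F : MvPolynomial (Fin 3) ℂ) : coeff 0 (tr P F) = eval P F := by
  have h : (constantCoeff : MvPolynomial (Fin 3) ℂ →+* ℂ).comp
      ((aeval (fun i : Fin 3 => (C (P i) + X i : MvPolynomial (Fin 3) ℂ)) : MvPolynomial (Fin 3) ℂ →ₐ[ℂ]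
        MvPolynomial (Fin 3) ℂ) : MvPolynomial (Fin 3) ℂ →+* MvPolynomial (Fin 3) ℂ) = eval P := by
    apply MvPolynomial.ringHom_ext
    · intro r; simp
    · intro i; simp
  exact DFunLike.congr_fun h F

theorem tr_ne {P : Fin 3 → ℂ} {F : MvPolynomial (Fin 3) ℂ} (hF : F ≠ 0) : tr P F ≠ 0 := by
  intro h
  apply hF
  have h1 : (aeval (fun i : Fin 3 => (X i - C (P i) : MvPolynomial (Fin 3) ℂ))) (tr P F) = F := by
    have h2 : ((aeval (fun i : Fin 3 => (X i - C (P i) : MvPolynomial (Fin 3) ℂ))).comp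
        (aeval (fun i : Fin 3 => (C (P i) + X i : MvPolynomial (Fin 3) ℂ)))) =
        AlgHom.id ℂ (MvPolynomial (Fin 3) ℂ) := by
      apply MvPolynomial.algHom_ext
      intro i
      simp only [AlgHom.comp_apply, aeval_X, map_add, AlgHom.id_apply]
      rw [← MvPolynomial.algebraMap_eq, AlgHom.commutes]
      ring
    exact DFunLike.congr_fun h2 F
  rw [← h1, h, map_zero]

/-- vanishing order at least `k`, through derivatives. -/
def Van (P : Fin 3 → ℂ) : ℕ → MvPolynomial (Fin 3) ℂ → Prop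
  | 0, _ => True
  | (k + 1), F => eval P F = 0 ∧ ∀ i, Van P k (pderiv i F)

theorem coeff_of_van (P : Fin 3 → ℂ) : ∀ (k : ℕ) (F : MvPolynomial (Fin 3) ℂ), Van P k F →
    ∀ s : Fin 3 →₀ ℕ, ∑ j, s j < k → coeff s (tr P F) = 0 := by
  intro k
  induction k with
  | zero => intro F _ s hs; omega
  | succ k ih =>
    intro F hF s hs
    by_cases h0 : s = 0
    · rw [h0, tr_const]; exact hF.1
    · obtain ⟨i, hi⟩ : ∃ i, s i ≠ 0 := by
        by_contra hcon
        push Not at hcon
        exact h0 (Finsupp.ext hcon)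
      obtain ⟨s', hs'⟩ : ∃ s' : Fin 3 →₀ ℕ, s = s' + Finsupp.single i 1 := by
        refine ⟨s - Finsupp.single i 1, ?_⟩
        ext j
        by_cases hj : j = i
        · subst hj
          simp
          omega
        · simp [Ne.symm hj]
      have h1 : ∑ j, s' j < k := by
        rw [hs'] at hs
        simp only [Finsupp.add_apply, Finset.sum_add_distrib] at hs
        have : ∑ j, (Finsupp.single i 1 : Fin 3 →₀ ℕ) j = 1 := by
          simp [Finsupp.single_apply]
        omega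
      have h2 := ih (pderiv i F) (hF.2 i) s' h1
      rw [← tr_pderiv, coeff_pderiv, ← hs'] at h2
      have h3 : ((s' i : ℂ) + 1) ≠ 0 := by exact_mod_cast Nat.succ_ne_zero (s' i)
      exact (mul_eq_zero.mp h2).resolve_right h3

theorem mult_ge (F : MvPolynomial (Fin 3) ℂ) (hF : F ≠ 0) (p : ℙ ℂ (Fin 3 → ℂ)) (k : ℕ)
    (h : Van p.rep k F) : k ≤ mult F p := by
  apply le_csInf
  · obtain ⟨s, hs⟩ := MvPolynomial.ne_zero_iff.mp (tr_ne (P := p.rep) hF)
    exact ⟨_, s, mem_support_iff.mpr hs, rfl⟩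
  · rintro n ⟨s, hs, rfl⟩
    by_contra hlt
    push Not at hlt
    exact (mem_support_iff.mp hs) (coeff_of_van p.rep k F h s hlt)

theorem van_smul {k : ℕ} {H : MvPolynomial (Fin 3) ℂ} (hH : H.IsHomogeneous k) (c : ℂ)
    (v : Fin 3 → ℂ) (n : ℕ) (h : Van v n H) : Van (fun i => c * v i) n H := by
  induction n generalizing k H with
  | zero => trivial
  | succ n ih =>
    refine ⟨?_, fun i => ih (hH.pderiv (i := i)) (h.2 i)⟩
    rw [eval_smul hH, h.1, mul_zero]

theorem mult_pt_ge {k : ℕ} {H : MvPolynomial (Fin 3) ℂ} (hH : H.IsHomogeneous k) (hH0 : H ≠ 0)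
    (a : ℤ) (t : ℂˣ) (n : ℕ) (h : Van (pv a t) n H) : n ≤ mult H (pt a t) := by
  obtain ⟨c, hc⟩ := Projectivization.exists_smul_eq_mk_rep ℂ (pv a t) (pv_ne a t)
  have h1 : (fun i => (c : ℂ) * pv a t i) = (pt a t).rep := hc
  apply mult_ge H hH0
  rw [← h1]
  exact van_smul hH _ _ _ h

/-- chain rule. -/
theorem chain (v : Fin 3 → Polynomial ℂ) (f : MvPolynomial (Fin 3) ℂ) :
    Polynomial.derivative (aeval v f) = ∑ i, aeval v (pderiv i f) * Polynomial.derivative (v i) := by
  induction f using MvPolynomial.induction_on with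
  | C c =>
    simp
  | add p q hp hq =>
    simp only [map_add, hp, hq, add_mul, Finset.sum_add_distrib]
  | mul_X p n hp =>
    classical
    rw [map_mul, aeval_X, Polynomial.derivative_mul, hp]
    have h1 : ∀ i, aeval v (pderiv i (p * X n)) * Polynomial.derivative (v i) =
        aeval v p * (if i = n then Polynomial.derivative (v n) else 0) +
          v n * (aeval v (pderiv i p) * Polynomial.derivative (v i)) := by
      intro i
      rw [Derivation.leibniz, smul_eq_mul, smul_eq_mul, map_add, map_mul, map_mul, aeval_X]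
      by_cases hin : i = n
      · subst hin
        rw [pderiv_X_self, map_one, if_pos rfl]; ring
      · rw [pderiv_X_of_ne (Ne.symm hin), map_zero, if_neg hin]; ring
    rw [Finset.sum_congr rfl fun i _ => h1 i, Finset.sum_add_distrib, ← Finset.mul_sum,
      ← Finset.mul_sum, Finset.sum_ite_eq' Finset.univ n (fun _ => Polynomial.derivative (v n))]
    simp only [Finset.mem_univ, if_true]
    ring

/-- tangent vector. -/
noncomputable def dv (a : ℤ) (t : ℂˣ) : Fin 3 → ℂ :=
  ![0, (a : ℂ) * tx a t - ty t + (1 - (a : ℂ)) * tz a t,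
    -(a : ℂ) * (ty t * tz a t) + tz a t * tx a t + ((a : ℂ) - 1) * (tx a t * ty t)]

theorem eval_dPhi (b : ℕ) (t : ℂˣ) (i : Fin 3) :
    (t : ℂ) * (Polynomial.derivative (Phi b i)).eval (t : ℂ) =
      (t : ℂ) ^ (b + 2) * ((((b : ℤ) + 2 : ℤ) : ℂ) * pv ((b : ℤ) + 2) t i + dv ((b : ℤ) + 2) t i) := by
  have ht : (t : ℂ) ≠ 0 := t.ne_zero
  have h1 : (t : ℂ) ^ (b + 2) * tx ((b : ℤ) + 2) t = (t : ℂ) ^ (2 * b + 4) := by
    rw [tx, show ((b : ℤ) + 2) = ((b + 2 : ℕ) : ℤ) by push_cast; ring, zpow_natCast,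
      Units.val_pow_eq_pow_val]
    ring
  have h2 : (t : ℂ) ^ (b + 2) * ty t = (t : ℂ) ^ (b + 1) := by
    rw [ty, Units.val_inv_eq_inv_val]
    field_simp
    ring
  have h3 : (t : ℂ) ^ (b + 2) * tz ((b : ℤ) + 2) t = (t : ℂ) := by
    rw [tz, show (1 - ((b : ℤ) + 2)) = -((b + 1 : ℕ) : ℤ) by push_cast; ring, zpow_neg, zpow_natCast,
      Units.val_inv_eq_inv_val, Units.val_pow_eq_pow_val]
    field_simp
    ring
  have h4 : (t : ℂ) ^ (b + 2) * (ty t * tz ((b : ℤ) + 2) t) = 1 := by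
    calc (t : ℂ) ^ (b + 2) * (ty t * tz ((b : ℤ) + 2) t)
        = ((t : ℂ) ^ (b + 2) * tz ((b : ℤ) + 2) t) * ty t := by ring
      _ = (t : ℂ) * ty t := by rw [h3]
      _ = 1 := by rw [ty, Units.val_inv_eq_inv_val, mul_inv_cancel₀ ht]
  have h5 : (t : ℂ) ^ (b + 2) * (tx ((b : ℤ) + 2) t * ty t) = (t : ℂ) ^ (2 * b + 3) := by
    calc (t : ℂ) ^ (b + 2) * (tx ((b : ℤ) + 2) t * ty t)
        = ((t : ℂ) ^ (b + 2) * tx ((b : ℤ) + 2) t) * ty t := by ring
      _ = (t : ℂ) ^ (2 * b + 4) * ty t := by rw [h1]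
      _ = (t : ℂ) ^ (2 * b + 3) * ((t : ℂ) * ty t) := by ring
      _ = (t : ℂ) ^ (2 * b + 3) := by
        rw [ty, Units.val_inv_eq_inv_val, mul_inv_cancel₀ ht, mul_one]
  have h6 : (t : ℂ) ^ (b + 2) * (tz ((b : ℤ) + 2) t * tx ((b : ℤ) + 2) t) = (t : ℂ) ^ (b + 3) := by
    calc (t : ℂ) ^ (b + 2) * (tz ((b : ℤ) + 2) t * tx ((b : ℤ) + 2) t)
        = ((t : ℂ) ^ (b + 2) * tz ((b : ℤ) + 2) t) * tx ((b : ℤ) + 2) t := by ring
      _ = (t : ℂ) * tx ((b : ℤ) + 2) t := by rw [h3]
      _ = (t : ℂ) ^ (b + 3) := by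
        rw [tx, show ((b : ℤ) + 2) = ((b + 2 : ℕ) : ℤ) by push_cast; ring, zpow_natCast,
          Units.val_pow_eq_pow_val]
        ring
  have e1 : ((((b : ℤ) + 2 : ℤ)) : ℂ) = (b : ℂ) + 2 := by push_cast; ring
  fin_cases i
  · simp only [Phi, pv, dv, Fin.zero_eta, Matrix.cons_val_zero, Polynomial.derivative_X_pow]
    simp only [Polynomial.eval_mul, Polynomial.eval_C, Polynomial.eval_pow, Polynomial.eval_X]
    rw [e1]
    push_cast
    try simp only [show b + 2 - 1 = b + 1 by omega]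
    ring
  · simp only [Phi, pv, dv, Fin.mk_one, Matrix.cons_val_one, Matrix.cons_val_zero, E1_xyz]
    simp only [Polynomial.derivative_add, Polynomial.derivative_X_pow, Polynomial.derivative_X,
      Polynomial.eval_add, Polynomial.eval_mul, Polynomial.eval_C, Polynomial.eval_pow,
      Polynomial.eval_X, Polynomial.eval_one]
    rw [e1]
    push_cast
    try simp only [show 2 * b + 4 - 1 = 2 * b + 3 by omega, show b + 1 - 1 = b by omega]
    linear_combination (-2 * ((b : ℂ) + 2)) * h1 - ((b : ℂ) + 1) * h2 - h3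
  · simp only [Phi, pv, dv, Fin.reduceFinMk, Matrix.cons_val, E2_xyz]
    simp only [Polynomial.derivative_add, Polynomial.derivative_X_pow, Polynomial.derivative_one,
      Polynomial.eval_add, Polynomial.eval_mul, Polynomial.eval_C, Polynomial.eval_pow,
      Polynomial.eval_X, Polynomial.eval_zero]
    rw [e1]
    push_cast
    try simp only [show 2 * b + 3 - 1 = 2 * b + 2 by omega, show b + 3 - 1 = b + 2 by omega]
    linear_combination (-(2 * (b : ℂ) + 3)) * h5 - ((b : ℂ) + 3) * h6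

end Q36.Ch
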