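import Mathlib
import Pool.Agent.Q36.Ch.Mult

set_option autoImplicit false

namespace Q36.Ch

open MvPolynomial
open scoped LinearAlgebra.Projectivization

/-- Euler relation at a point. -/
theorem euler {k : ℕ} {H : MvPolynomial (Fin 3) ℂ} (hH : H.IsHomogeneous k) (v : Fin 3 → ℂ)
    (h : eval v H = 0) : ∑ i, v i * eval v (pderiv i H) = 0 := by
  have h1 := congrArg (eval v) hH.sum_X_mul_pderiv
  simp only [map_sum, map_mul, eval_X, nsmul_eq_mul, map_natCast, h, mul_zero] at h1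
  exact h1

/-- first order tangent relation. -/
theorem tangent {k : ℕ} {H : MvPolynomial (Fin 3) ℂ} (hH : H.IsHomogeneous k) (b : ℕ)
    (h0 : aeval (Phi b) H = 0) (t : ℂˣ) :
    ∑ i, dv ((b : ℤ) + 2) t i * eval (pv ((b : ℤ) + 2) t) (pderiv i H) = 0 := by
  have h1 := chain (Phi b) H
  rw [h0, Polynomial.derivative_zero] at h1
  have h2 := congrArg (Polynomial.eval (t : ℂ)) h1
  rw [Polynomial.eval_zero, Polynomial.eval_finsetSum] at h2
  have hE := euler hH (pv ((b : ℤ) + 2) t) ((aeval_Phi_eq_zero_iff hH b).mp h0 t)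
  have h3 : (((t : ℂ) ^ (b + 2)) ^ (k - 1) * (t : ℂ) ^ (b + 2)) *
      ∑ i, ((((b : ℤ) + 2 : ℤ) : ℂ) * pv ((b : ℤ) + 2) t i + dv ((b : ℤ) + 2) t i) *
        eval (pv ((b : ℤ) + 2) t) (pderiv i H) = 0 := by
    rw [Finset.mul_sum]
    have h4 : (t : ℂ) * ∑ i, Polynomial.eval (t : ℂ) (aeval (Phi b) (pderiv i H) *
        Polynomial.derivative (Phi b i)) = 0 := by rw [← h2, mul_zero]
    rw [Finset.mul_sum] at h4
    rw [← h4]
    refine Finset.sum_congr rfl fun i _ => ?_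
    rw [Polynomial.eval_mul, eval_aeval_Phi (hH.pderiv (i := i))]
    have h5 := eval_dPhi b t i
    linear_combination (-((t : ℂ) ^ (b + 2)) ^ (k - 1) * eval (pv ((b : ℤ) + 2) t) (pderiv i H)) * h5
  have hc : ((t : ℂ) ^ (b + 2)) ^ (k - 1) * (t : ℂ) ^ (b + 2) ≠ 0 :=
    mul_ne_zero (pow_ne_zero _ (pow_ne_zero _ t.ne_zero)) (pow_ne_zero _ t.ne_zero)
  have h6 := (mul_eq_zero.mp h3).resolve_left hc
  simp only [Fin.sum_univ_three] at h6 hE ⊢
  linear_combination h6 - ((((b : ℤ) + 2 : ℤ) : ℂ)) * hE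

theorem pderiv_comm' (i j : Fin 3) (H : MvPolynomial (Fin 3) ℂ) :
    pderiv j (pderiv i H) = pderiv i (pderiv j H) := by
  ext m
  rw [coeff_pderiv, coeff_pderiv, coeff_pderiv, coeff_pderiv]
  rw [add_right_comm m (Finsupp.single j 1) (Finsupp.single i 1)]
  by_cases h : i = j
  · subst h; rfl
  · have h1 : (m + (Finsupp.single j 1 : Fin 3 →₀ ℕ) : Fin 3 →₀ ℕ) i = m i := by
      simp [Ne.symm h]
    have h2 : (m + (Finsupp.single i 1 : Fin 3 →₀ ℕ) : Fin 3 →₀ ℕ) j = m j := by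
      simp [h]
    rw [h1, h2]
    ring

/-- second order tangent relation at a singular point. -/
theorem tangent2 {k : ℕ} {H : MvPolynomial (Fin 3) ℂ} (hH : H.IsHomogeneous k) (b : ℕ)
    (h0 : aeval (Phi b) H = 0) (t : ℂˣ)
    (hs : ∀ i, eval (pv ((b : ℤ) + 2) t) (pderiv i H) = 0) :
    ∑ i, ∑ j, dv ((b : ℤ) + 2) t i * dv ((b : ℤ) + 2) t j *
      eval (pv ((b : ℤ) + 2) t) (pderiv j (pderiv i H)) = 0 := by
  have h1 := chain (Phi b) H
  rw [h0, Polynomial.derivative_zero] at h1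
  have h2 := congrArg (fun p => Polynomial.eval (t : ℂ) (Polynomial.derivative p)) h1
  simp only [Polynomial.derivative_zero, Polynomial.eval_zero, Polynomial.derivative_sum,
    Polynomial.derivative_mul, Polynomial.eval_finsetSum, Polynomial.eval_add,
    Polynomial.eval_mul] at h2
  have h3 : ∀ i, Polynomial.eval (t : ℂ) (aeval (Phi b) (pderiv i H)) = 0 := by
    intro i
    rw [eval_aeval_Phi (hH.pderiv (i := i)), hs i, mul_zero]
  simp only [h3, zero_mul, add_zero, chain, Polynomial.eval_finsetSum, Polynomial.eval_mul] at h2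
  have hE : ∀ i, ∑ j, pv ((b : ℤ) + 2) t j * eval (pv ((b : ℤ) + 2) t) (pderiv j (pderiv i H)) = 0 :=
    fun i => euler (hH.pderiv (i := i)) _ (hs i)
  have h4 : ∀ i j, Polynomial.eval (t : ℂ) (aeval (Phi b) (pderiv j (pderiv i H))) =
      ((t : ℂ) ^ (b + 2)) ^ (k - 1 - 1) * eval (pv ((b : ℤ) + 2) t) (pderiv j (pderiv i H)) :=
    fun i j => eval_aeval_Phi ((hH.pderiv (i := i)).pderiv (i := j)) b t
  simp only [h4] at h2
  have hsymm : ∀ i j, eval (pv ((b : ℤ) + 2) t) (pderiv j (pderiv i H)) =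
      eval (pv ((b : ℤ) + 2) t) (pderiv i (pderiv j H)) := by
    intro i j
    rw [pderiv_comm']
  have h5 : ((t : ℂ) ^ (b + 2)) ^ (k - 1 - 1) * ((t : ℂ) ^ (b + 2)) ^ 2 *
      ∑ i, ∑ j, ((((b : ℤ) + 2 : ℤ) : ℂ) * pv ((b : ℤ) + 2) t i + dv ((b : ℤ) + 2) t i) *
        ((((b : ℤ) + 2 : ℤ) : ℂ) * pv ((b : ℤ) + 2) t j + dv ((b : ℤ) + 2) t j) *
        eval (pv ((b : ℤ) + 2) t) (pderiv j (pderiv i H)) = 0 := by
    have h6 : (t : ℂ) ^ 2 * ∑ i, (∑ j, ((t : ℂ) ^ (b + 2)) ^ (k - 1 - 1) *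
        eval (pv ((b : ℤ) + 2) t) (pderiv j (pderiv i H)) *
        Polynomial.eval (t : ℂ) (Polynomial.derivative (Phi b j))) *
        Polynomial.eval (t : ℂ) (Polynomial.derivative (Phi b i)) = 0 := by
      rw [← h2, mul_zero]
    rw [← h6, Finset.mul_sum, Finset.mul_sum]
    refine Finset.sum_congr rfl fun i _ => ?_
    rw [Finset.mul_sum, Finset.sum_mul, Finset.mul_sum]
    refine Finset.sum_congr rfl fun j _ => ?_
    have e1 := eval_dPhi b t i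
    have e2 := eval_dPhi b t j
    calc ((t : ℂ) ^ (b + 2)) ^ (k - 1 - 1) * ((t : ℂ) ^ (b + 2)) ^ 2 *
        (((((b : ℤ) + 2 : ℤ) : ℂ) * pv ((b : ℤ) + 2) t i + dv ((b : ℤ) + 2) t i) *
        ((((b : ℤ) + 2 : ℤ) : ℂ) * pv ((b : ℤ) + 2) t j + dv ((b : ℤ) + 2) t j) *
        eval (pv ((b : ℤ) + 2) t) (pderiv j (pderiv i H)))
        = ((t : ℂ) ^ (b + 2)) ^ (k - 1 - 1) *
          ((t : ℂ) ^ (b + 2) * ((((b : ℤ) + 2 : ℤ) : ℂ) * pv ((b : ℤ) + 2) t i + dv ((b : ℤ) + 2) t i)) *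
          ((t : ℂ) ^ (b + 2) * ((((b : ℤ) + 2 : ℤ) : ℂ) * pv ((b : ℤ) + 2) t j + dv ((b : ℤ) + 2) t j)) *
          eval (pv ((b : ℤ) + 2) t) (pderiv j (pderiv i H)) := by ring
      _ = _ := by rw [← e1, ← e2]; ring
  have hc : ((t : ℂ) ^ (b + 2)) ^ (k - 1 - 1) * ((t : ℂ) ^ (b + 2)) ^ 2 ≠ 0 :=
    mul_ne_zero (pow_ne_zero _ (pow_ne_zero _ t.ne_zero)) (pow_ne_zero _ (pow_ne_zero _ t.ne_zero))
  have h7 := (mul_eq_zero.mp h5).resolve_left hc
  have hE0 := hE 0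
  have hE1 := hE 1
  have hE2 := hE 2
  have s01 := hsymm 0 1
  have s02 := hsymm 0 2
  have s12 := hsymm 1 2
  simp only [Fin.sum_univ_three] at h7 hE0 hE1 hE2 ⊢
  rw [s01, s02, s12] at h7 ⊢
  rw [s01, s02] at hE0
  rw [s12] at hE1
  generalize (((b : ℤ) + 2 : ℤ) : ℂ) = A at *
  generalize dv ((b : ℤ) + 2) t = d at *
  generalize pv ((b : ℤ) + 2) t = v at *
  linear_combination h7 - A * (A * v 0 + 2 * d 0) * hE0 - A * (A * v 1 + 2 * d 1) * hE1
    - A * (A * v 2 + 2 * d 2) * hE2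

end Q36.Ch
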