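import Mathlib
import Pool.Agent.Q36.Ch.Tan

set_option autoImplicit false

namespace Q36.Ch

open MvPolynomial
open scoped LinearAlgebra.Projectivization

theorem pv_eq {a : ℤ} {t u : ℂˣ} (h1 : E1 a t = E1 a u) (h2 : E2 a t = E2 a u) :
    pv a u = pv a t := by
  rw [pv, pv, h1, h2]

theorem GG_aeval (b : ℕ) : aeval (Phi b) (GG b) = 0 :=
  (aeval_Phi_eq_zero_iff (GG_homog b) b).mpr (GG_pv b)

theorem dv_zero (a : ℤ) (t : ℂˣ) : dv a t 0 = 0 := rfl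

theorem node_grad (b : ℕ) (t u : ℂˣ) (h : pv ((b : ℤ) + 2) u = pv ((b : ℤ) + 2) t)
    (hdet : dv ((b : ℤ) + 2) t 1 * dv ((b : ℤ) + 2) u 2 -
      dv ((b : ℤ) + 2) u 1 * dv ((b : ℤ) + 2) t 2 ≠ 0) :
    ∀ i, eval (pv ((b : ℤ) + 2) t) (pderiv i (GG b)) = 0 := by
  have h1 := tangent (GG_homog b) b (GG_aeval b) t
  have h2 := tangent (GG_homog b) b (GG_aeval b) u
  have h3 := euler (GG_homog b) (pv ((b : ℤ) + 2) t) (GG_pv b t)
  rw [h] at h2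
  have hv : pv ((b : ℤ) + 2) t 0 = 1 := rfl
  simp only [Fin.sum_univ_three, dv_zero, zero_mul, zero_add, hv, one_mul] at h1 h2 h3
  generalize eval (pv ((b : ℤ) + 2) t) (pderiv 0 (GG b)) = g0 at *
  have hg1 : eval (pv ((b : ℤ) + 2) t) (pderiv 1 (GG b)) = 0 := by
    generalize eval (pv ((b : ℤ) + 2) t) (pderiv 1 (GG b)) = g1 at *
    generalize eval (pv ((b : ℤ) + 2) t) (pderiv 2 (GG b)) = g2 at *
    have : (dv ((b : ℤ) + 2) t 1 * dv ((b : ℤ) + 2) u 2 -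
      dv ((b : ℤ) + 2) u 1 * dv ((b : ℤ) + 2) t 2) * g1 = 0 := by
      linear_combination dv ((b : ℤ) + 2) u 2 * h1 - dv ((b : ℤ) + 2) t 2 * h2
    exact (mul_eq_zero.mp this).resolve_left hdet
  have hg2 : eval (pv ((b : ℤ) + 2) t) (pderiv 2 (GG b)) = 0 := by
    generalize eval (pv ((b : ℤ) + 2) t) (pderiv 1 (GG b)) = g1 at *
    generalize eval (pv ((b : ℤ) + 2) t) (pderiv 2 (GG b)) = g2 at *
    have : (dv ((b : ℤ) + 2) t 1 * dv ((b : ℤ) + 2) u 2 -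
      dv ((b : ℤ) + 2) u 1 * dv ((b : ℤ) + 2) t 2) * g2 = 0 := by
      linear_combination dv ((b : ℤ) + 2) t 1 * h2 - dv ((b : ℤ) + 2) u 1 * h1
    exact (mul_eq_zero.mp this).resolve_left hdet
  intro i
  fin_cases i
  · have h4 := euler (GG_homog b) (pv ((b : ℤ) + 2) t) (GG_pv b t)
    simp only [Fin.sum_univ_three, hv, one_mul, hg1, hg2, mul_zero, add_zero] at h4
    exact h4
  · exact hg1
  · exact hg2

theorem node_van (b : ℕ) (t u : ℂˣ) (h : pv ((b : ℤ) + 2) u = pv ((b : ℤ) + 2) t)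
    (hdet : dv ((b : ℤ) + 2) t 1 * dv ((b : ℤ) + 2) u 2 -
      dv ((b : ℤ) + 2) u 1 * dv ((b : ℤ) + 2) t 2 ≠ 0) :
    Van (pv ((b : ℤ) + 2) t) 2 (GG b) :=
  ⟨GG_pv b t, fun i => ⟨node_grad b t u h hdet i, fun _ => trivial⟩⟩

theorem triple_van (b : ℕ) (t u w : ℂˣ) (h : pv ((b : ℤ) + 2) u = pv ((b : ℤ) + 2) t)
    (h' : pv ((b : ℤ) + 2) w = pv ((b : ℤ) + 2) t)
    (hdet : dv ((b : ℤ) + 2) t 1 * dv ((b : ℤ) + 2) u 2 -
      dv ((b : ℤ) + 2) u 1 * dv ((b : ℤ) + 2) t 2 ≠ 0)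
    (hs1 : dv ((b : ℤ) + 2) w 1 = -(dv ((b : ℤ) + 2) t 1 + dv ((b : ℤ) + 2) u 1))
    (hs2 : dv ((b : ℤ) + 2) w 2 = -(dv ((b : ℤ) + 2) t 2 + dv ((b : ℤ) + 2) u 2)) :
    Van (pv ((b : ℤ) + 2) t) 3 (GG b) := by
  have hg := node_grad b t u h hdet
  have q1 := tangent2 (GG_homog b) b (GG_aeval b) t hg
  have q2 := tangent2 (GG_homog b) b (GG_aeval b) u (by rw [h]; exact hg)
  have q3 := tangent2 (GG_homog b) b (GG_aeval b) w (by rw [h']; exact hg)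
  rw [h] at q2
  rw [h'] at q3
  have hE : ∀ i, ∑ j, pv ((b : ℤ) + 2) t j * eval (pv ((b : ℤ) + 2) t)
      (pderiv j (pderiv i (GG b))) = 0 :=
    fun i => euler ((GG_homog b).pderiv (i := i)) _ (hg i)
  have hv : pv ((b : ℤ) + 2) t 0 = 1 := rfl
  simp only [Fin.sum_univ_three, dv_zero, zero_mul, zero_add, mul_zero, hs1, hs2,
    pderiv_comm' 1 2 (GG b)] at q1 q2 q3
  have hE0 := hE 0
  have hE1 := hE 1
  have hE2 := hE 2
  simp only [Fin.sum_univ_three, hv, one_mul] at hE0 hE1 hE2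
  rw [pderiv_comm' 0 1 (GG b), pderiv_comm' 0 2 (GG b)] at hE0
  rw [pderiv_comm' 1 2 (GG b)] at hE1
  have hA : eval (pv ((b : ℤ) + 2) t) (pderiv 1 (pderiv 1 (GG b))) = 0 := by
    generalize eval (pv ((b : ℤ) + 2) t) (pderiv 1 (pderiv 1 (GG b))) = A at *
    generalize eval (pv ((b : ℤ) + 2) t) (pderiv 1 (pderiv 2 (GG b))) = B at *
    generalize eval (pv ((b : ℤ) + 2) t) (pderiv 2 (pderiv 2 (GG b))) = D at *
    have : (dv ((b : ℤ) + 2) t 1 * dv ((b : ℤ) + 2) u 2 -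
      dv ((b : ℤ) + 2) u 1 * dv ((b : ℤ) + 2) t 2) ^ 2 * A = 0 := by
      linear_combination (dv ((b : ℤ) + 2) u 2 ^ 2 + dv ((b : ℤ) + 2) u 2 * dv ((b : ℤ) + 2) t 2) * q1
        + (dv ((b : ℤ) + 2) t 2 ^ 2 + dv ((b : ℤ) + 2) u 2 * dv ((b : ℤ) + 2) t 2) * q2
        - dv ((b : ℤ) + 2) u 2 * dv ((b : ℤ) + 2) t 2 * q3
    exact (mul_eq_zero.mp this).resolve_left (pow_ne_zero _ hdet)
  have hD : eval (pv ((b : ℤ) + 2) t) (pderiv 2 (pderiv 2 (GG b))) = 0 := by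
    generalize eval (pv ((b : ℤ) + 2) t) (pderiv 1 (pderiv 1 (GG b))) = A at *
    generalize eval (pv ((b : ℤ) + 2) t) (pderiv 1 (pderiv 2 (GG b))) = B at *
    generalize eval (pv ((b : ℤ) + 2) t) (pderiv 2 (pderiv 2 (GG b))) = D at *
    have : (dv ((b : ℤ) + 2) t 1 * dv ((b : ℤ) + 2) u 2 -
      dv ((b : ℤ) + 2) u 1 * dv ((b : ℤ) + 2) t 2) ^ 2 * D = 0 := by
      linear_combination (dv ((b : ℤ) + 2) u 1 ^ 2 + dv ((b : ℤ) + 2) u 1 * dv ((b : ℤ) + 2) t 1) * q1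
        + (dv ((b : ℤ) + 2) t 1 ^ 2 + dv ((b : ℤ) + 2) u 1 * dv ((b : ℤ) + 2) t 1) * q2
        - dv ((b : ℤ) + 2) u 1 * dv ((b : ℤ) + 2) t 1 * q3
    exact (mul_eq_zero.mp this).resolve_left (pow_ne_zero _ hdet)
  have hB : eval (pv ((b : ℤ) + 2) t) (pderiv 1 (pderiv 2 (GG b))) = 0 := by
    simp only [hA, hD] at q1 q2 q3
    generalize eval (pv ((b : ℤ) + 2) t) (pderiv 1 (pderiv 2 (GG b))) = B at *
    have e1 : dv ((b : ℤ) + 2) t 1 * dv ((b : ℤ) + 2) t 2 * B = 0 := by linear_combination q1 / 2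
    have e2 : dv ((b : ℤ) + 2) u 1 * dv ((b : ℤ) + 2) u 2 * B = 0 := by linear_combination q2 / 2
    have e3 : (dv ((b : ℤ) + 2) t 1 + dv ((b : ℤ) + 2) u 1) *
        (dv ((b : ℤ) + 2) t 2 + dv ((b : ℤ) + 2) u 2) * B = 0 := by linear_combination q3 / 2
    have e4 : (dv ((b : ℤ) + 2) t 1 * dv ((b : ℤ) + 2) u 2 -
      dv ((b : ℤ) + 2) u 1 * dv ((b : ℤ) + 2) t 2) ^ 2 * B = 0 := by
      linear_combination (dv ((b : ℤ) + 2) t 1 * dv ((b : ℤ) + 2) u 2 +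
        dv ((b : ℤ) + 2) u 1 * dv ((b : ℤ) + 2) t 2) * (e3 - e1 - e2)
        - 4 * dv ((b : ℤ) + 2) u 1 * dv ((b : ℤ) + 2) u 2 * e1
    exact (mul_eq_zero.mp e4).resolve_left (pow_ne_zero _ hdet)
  rw [hA, hB] at hE1
  rw [hB, hD] at hE2
  have hC1 : eval (pv ((b : ℤ) + 2) t) (pderiv 0 (pderiv 1 (GG b))) = 0 := by linear_combination hE1
  have hC2 : eval (pv ((b : ℤ) + 2) t) (pderiv 0 (pderiv 2 (GG b))) = 0 := by linear_combination hE2
  rw [hC1, hC2] at hE0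
  have hC0 : eval (pv ((b : ℤ) + 2) t) (pderiv 0 (pderiv 0 (GG b))) = 0 := by linear_combination hE0
  refine ⟨GG_pv b t, fun i => ⟨hg i, fun j => ⟨?_, fun _ => trivial⟩⟩⟩
  fin_cases i <;> fin_cases j
  · exact hC0
  · change eval (pv ((b : ℤ) + 2) t) (pderiv 1 (pderiv 0 (GG b))) = 0
    rw [pderiv_comm' 0 1]; exact hC1
  · change eval (pv ((b : ℤ) + 2) t) (pderiv 2 (pderiv 0 (GG b))) = 0
    rw [pderiv_comm' 0 2]; exact hC2
  · exact hC1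
  · exact hA
  · change eval (pv ((b : ℤ) + 2) t) (pderiv 2 (pderiv 1 (GG b))) = 0
    rw [pderiv_comm' 1 2]; exact hB
  · exact hC2
  · exact hB
  · exact hD

/-- determinant of two branches, type A. -/
theorem detA (a x y z : ℂ) :
    (a * x - y + (1 - a) * z) * (-a * (x * z) + z * y + (a - 1) * (y * x)) -
    (a * y - x + (1 - a) * z) * (-a * (y * z) + z * x + (a - 1) * (x * y)) =
    (a ^ 2 - 1) * ((x - y) * (y - z) * (z - x)) ∨
    (a * x - y + (1 - a) * z) * (-a * (x * z) + z * y + (a - 1) * (y * x)) -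
    (a * y - x + (1 - a) * z) * (-a * (y * z) + z * x + (a - 1) * (x * y)) =
    -((a ^ 2 - 1) * ((x - y) * (y - z) * (z - x))) := by
  first
    | (left; ring1)
    | (right; ring1)

theorem detB (a x y z : ℂ) :
    (a * x - y + (1 - a) * z) * (-a * (z * y) + y * x + (a - 1) * (x * z)) -
    (a * x - z + (1 - a) * y) * (-a * (y * z) + z * x + (a - 1) * (x * y)) =
    (a ^ 2 - 2 * a) * ((x - y) * (y - z) * (z - x)) ∨
    (a * x - y + (1 - a) * z) * (-a * (z * y) + y * x + (a - 1) * (x * z)) -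
    (a * x - z + (1 - a) * y) * (-a * (y * z) + z * x + (a - 1) * (x * y)) =
    -((a ^ 2 - 2 * a) * ((x - y) * (y - z) * (z - x))) := by
  first
    | (left; ring1)
    | (right; ring1)

theorem detC (a x y z : ℂ) :
    (a * x - y + (1 - a) * z) * (-a * (x * y) + y * z + (a - 1) * (z * x)) -
    (a * z - x + (1 - a) * y) * (-a * (y * z) + z * x + (a - 1) * (x * y)) =
    (a ^ 2 - a + 1) * ((x - y) * (y - z) * (z - x)) ∨
    (a * x - y + (1 - a) * z) * (-a * (x * y) + y * z + (a - 1) * (z * x)) -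
    (a * z - x + (1 - a) * y) * (-a * (y * z) + z * x + (a - 1) * (x * y)) =
    -((a ^ 2 - a + 1) * ((x - y) * (y - z) * (z - x))) := by
  first
    | (left; ring1)
    | (right; ring1)

end Q36.Ch
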