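import Mathlib
import Pool.Agent.Q36.Ch.Sing

set_option autoImplicit false

namespace Q36.Ch

open MvPolynomial
open scoped LinearAlgebra.Projectivization

theorem zcomb {t : ℂˣ} {p q r : ℤ} (hp : t ^ p = 1) (hq : t ^ q = 1)
    (h : ∃ u v : ℤ, r = p * u + q * v) : t ^ r = 1 := by
  obtain ⟨u, v, rfl⟩ := h
  rw [zpow_add, zpow_mul, zpow_mul, hp, hq, one_zpow, one_zpow, one_mul]

theorem zcomb1 {t : ℂˣ} {p q : ℤ} (hp : t ^ p = 1) (hq : t ^ q = 1)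
    (h : ∃ u v : ℤ, 1 = p * u + q * v) : t = 1 := by
  have := zcomb hp hq h
  rwa [zpow_one] at this

theorem xy_ne {a : ℤ} {t : ℂˣ} (h : tx a t = ty t) : t ^ (a + 1) = 1 := by
  have h1 : t ^ a = t⁻¹ := Units.ext h
  rw [zpow_add, h1, zpow_one, inv_mul_cancel]

theorem yz_ne {a : ℤ} {t : ℂˣ} (h : ty t = tz a t) : t ^ (a - 2) = 1 := by
  have h1 : t⁻¹ = t ^ (1 - a) := Units.ext h
  have h2 : t ^ (1 - a) * t = 1 := by rw [← h1, inv_mul_cancel]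
  rw [← zpow_add_one] at h2
  rw [show a - 2 = -(1 - a + 1) by ring, zpow_neg, h2, inv_one]

theorem zx_ne {a : ℤ} {t : ℂˣ} (h : tz a t = tx a t) : t ^ (2 * a - 1) = 1 := by
  have h1 : t ^ (1 - a) = t ^ a := Units.ext h
  have h2 : t ^ a * (t ^ (1 - a))⁻¹ = 1 := by rw [h1, mul_inv_cancel]
  rw [← zpow_neg, ← zpow_add] at h2
  rw [← h2]; congr 1; ring

theorem mem_sing (b : ℕ) (t : ℂˣ) (h : Van (pv ((b : ℤ) + 2) t) 2 (GG b)) :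
    pt ((b : ℤ) + 2) t ∈ singSet (GG b) := by
  refine ⟨?_, fun i => ?_⟩
  · rw [pt, eval_rep (GG_homog b)]; exact h.1
  · rw [pt, eval_rep ((GG_homog b).pderiv (i := i))]; exact (h.2 i).1

theorem nodeA (b : ℕ) (t : ℂˣ) (h : t ^ (((b : ℤ) + 2) ^ 2 - 1) = 1)
    (hxy : tx ((b : ℤ) + 2) t ≠ ty t) (hyz : ty t ≠ tz ((b : ℤ) + 2) t)
    (hzx : tz ((b : ℤ) + 2) t ≠ tx ((b : ℤ) + 2) t) : Van (pv ((b : ℤ) + 2) t) 2 (GG b) := by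
  obtain ⟨p1, p2, p3⟩ := permA _ t h
  have e1 : E1 ((b : ℤ) + 2) t = E1 ((b : ℤ) + 2) (t ^ (-((b : ℤ) + 2))) := by
    rw [E1_xyz, E1_xyz, p1, p2, p3]; ring
  have e2 : E2 ((b : ℤ) + 2) t = E2 ((b : ℤ) + 2) (t ^ (-((b : ℤ) + 2))) := by
    rw [E2_xyz, E2_xyz, p1, p2, p3]; ring
  refine node_van b t (t ^ (-((b : ℤ) + 2))) (pv_eq e1 e2) ?_
  have hn : (((((b : ℤ) + 2 : ℤ)) : ℂ) ^ 2 - 1) *
      ((tx ((b : ℤ) + 2) t - ty t) * (ty t - tz ((b : ℤ) + 2) t) *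
        (tz ((b : ℤ) + 2) t - tx ((b : ℤ) + 2) t)) ≠ 0 := by
    refine mul_ne_zero ?_ (mul_ne_zero (mul_ne_zero (sub_ne_zero.mpr hxy) (sub_ne_zero.mpr hyz))
      (sub_ne_zero.mpr hzx))
    have : (((((b : ℤ) + 2 : ℤ)) : ℂ) ^ 2 - 1) = ((b ^ 2 + 4 * b + 3 : ℕ) : ℂ) := by
      push_cast; ring
    rw [this]
    exact Nat.cast_ne_zero.mpr (by positivity)
  simp only [dv, Matrix.cons_val_one, Matrix.cons_val_zero, Matrix.cons_val, p1, p2, p3]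
  rcases detA ((((b : ℤ) + 2 : ℤ)) : ℂ) (tx ((b : ℤ) + 2) t) (ty t) (tz ((b : ℤ) + 2) t) with h | h
  · intro h0
    apply hn
    rw [← h, ← h0]
  · intro h0
    apply hn
    rw [← neg_eq_zero, ← h, ← h0]

theorem nodeB (b : ℕ) (hb : 1 ≤ b) (t : ℂˣ) (h : t ^ (((b : ℤ) + 2) ^ 2 - 2 * ((b : ℤ) + 2)) = 1)
    (hxy : tx ((b : ℤ) + 2) t ≠ ty t) (hyz : ty t ≠ tz ((b : ℤ) + 2) t)
    (hzx : tz ((b : ℤ) + 2) t ≠ tx ((b : ℤ) + 2) t) : Van (pv ((b : ℤ) + 2) t) 2 (GG b) := by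
  obtain ⟨p1, p2, p3⟩ := permB _ t h
  have e1 : E1 ((b : ℤ) + 2) t = E1 ((b : ℤ) + 2) (t ^ (((b : ℤ) + 2) - 1)) := by
    rw [E1_xyz, E1_xyz, p1, p2, p3]; ring
  have e2 : E2 ((b : ℤ) + 2) t = E2 ((b : ℤ) + 2) (t ^ (((b : ℤ) + 2) - 1)) := by
    rw [E2_xyz, E2_xyz, p1, p2, p3]; ring
  refine node_van b t (t ^ (((b : ℤ) + 2) - 1)) (pv_eq e1 e2) ?_
  have hn : (((((b : ℤ) + 2 : ℤ)) : ℂ) ^ 2 - 2 * ((((b : ℤ) + 2 : ℤ)) : ℂ)) *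
      ((tx ((b : ℤ) + 2) t - ty t) * (ty t - tz ((b : ℤ) + 2) t) *
        (tz ((b : ℤ) + 2) t - tx ((b : ℤ) + 2) t)) ≠ 0 := by
    refine mul_ne_zero ?_ (mul_ne_zero (mul_ne_zero (sub_ne_zero.mpr hxy) (sub_ne_zero.mpr hyz))
      (sub_ne_zero.mpr hzx))
    have : (((((b : ℤ) + 2 : ℤ)) : ℂ) ^ 2 - 2 * ((((b : ℤ) + 2 : ℤ)) : ℂ)) = ((b ^ 2 + 2 * b : ℕ) : ℂ) := by
      push_cast; ring
    rw [this]
    exact Nat.cast_ne_zero.mpr (by positivity)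
  simp only [dv, Matrix.cons_val_one, Matrix.cons_val_zero, Matrix.cons_val, p1, p2, p3]
  rcases detB ((((b : ℤ) + 2 : ℤ)) : ℂ) (tx ((b : ℤ) + 2) t) (ty t) (tz ((b : ℤ) + 2) t) with h | h
  · intro h0
    apply hn
    rw [← h, ← h0]
  · intro h0
    apply hn
    rw [← neg_eq_zero, ← h, ← h0]

theorem tripleC (b : ℕ) (t : ℂˣ) (h : t ^ (((b : ℤ) + 2) ^ 2 - ((b : ℤ) + 2) + 1) = 1)
    (hxy : tx ((b : ℤ) + 2) t ≠ ty t) (hyz : ty t ≠ tz ((b : ℤ) + 2) t)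
    (hzx : tz ((b : ℤ) + 2) t ≠ tx ((b : ℤ) + 2) t) : Van (pv ((b : ℤ) + 2) t) 3 (GG b) := by
  obtain ⟨p1, p2, p3⟩ := permC _ t h
  obtain ⟨r1, r2, r3⟩ := permC' _ t h
  have e1 : E1 ((b : ℤ) + 2) t = E1 ((b : ℤ) + 2) (t ^ (-((b : ℤ) + 2))) := by
    rw [E1_xyz, E1_xyz, p1, p2, p3]; ring
  have e2 : E2 ((b : ℤ) + 2) t = E2 ((b : ℤ) + 2) (t ^ (-((b : ℤ) + 2))) := by
    rw [E2_xyz, E2_xyz, p1, p2, p3]; ring
  have e1' : E1 ((b : ℤ) + 2) t = E1 ((b : ℤ) + 2) (t ^ (((b : ℤ) + 2) - 1)) := by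
    rw [E1_xyz, E1_xyz, r1, r2, r3]; ring
  have e2' : E2 ((b : ℤ) + 2) t = E2 ((b : ℤ) + 2) (t ^ (((b : ℤ) + 2) - 1)) := by
    rw [E2_xyz, E2_xyz, r1, r2, r3]; ring
  have hn : (((((b : ℤ) + 2 : ℤ)) : ℂ) ^ 2 - ((((b : ℤ) + 2 : ℤ)) : ℂ) + 1) *
      ((tx ((b : ℤ) + 2) t - ty t) * (ty t - tz ((b : ℤ) + 2) t) *
        (tz ((b : ℤ) + 2) t - tx ((b : ℤ) + 2) t)) ≠ 0 := by
    refine mul_ne_zero ?_ (mul_ne_zero (mul_ne_zero (sub_ne_zero.mpr hxy) (sub_ne_zero.mpr hyz))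
      (sub_ne_zero.mpr hzx))
    have : (((((b : ℤ) + 2 : ℤ)) : ℂ) ^ 2 - ((((b : ℤ) + 2 : ℤ)) : ℂ) + 1) = ((b ^ 2 + 3 * b + 3 : ℕ) : ℂ) := by
      push_cast; ring
    rw [this]
    exact Nat.cast_ne_zero.mpr (by positivity)
  refine triple_van b t (t ^ (-((b : ℤ) + 2))) (t ^ (((b : ℤ) + 2) - 1)) (pv_eq e1 e2)
    (pv_eq e1' e2') ?_ ?_ ?_
  · simp only [dv, Matrix.cons_val_one, Matrix.cons_val_zero, Matrix.cons_val, p1, p2, p3]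
    rcases detC ((((b : ℤ) + 2 : ℤ)) : ℂ) (tx ((b : ℤ) + 2) t) (ty t) (tz ((b : ℤ) + 2) t) with h | h
    · intro h0
      apply hn
      rw [← h, ← h0]
    · intro h0
      apply hn
      rw [← neg_eq_zero, ← h, ← h0]
  · simp only [dv, Matrix.cons_val_one, Matrix.cons_val_zero, p1, p2, p3, r1, r2, r3]
    ring
  · simp only [dv, Matrix.cons_val, p1, p2, p3, r1, r2, r3]
    ring

theorem fin_RU (n : ℕ) [NeZero n] : ((rootsOfUnity n ℂ : Set ℂˣ)).Finite := by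
  have : Finite (rootsOfUnity n ℂ) := inferInstance
  exact this

/-- roots of unity as a finite set of units. -/
noncomputable def RU (n : ℕ) [NeZero n] : Finset ℂˣ := (fin_RU n).toFinset

theorem mem_RU (n : ℕ) [NeZero n] (t : ℂˣ) : t ∈ RU n ↔ t ^ n = 1 := by
  rw [RU, Set.Finite.mem_toFinset]
  exact mem_rootsOfUnity n t

theorem card_RU (n : ℕ) [NeZero n] : (RU n).card = n := by
  rw [RU, ← Set.ncard_eq_toFinset_card _ (fin_RU n), ← Nat.card_coe_set_eq]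
  exact Complex.card_rootsOfUnity n

end Q36.Ch
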