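import Mathlib
import Pool.Agent.Q36.Ch.Count

set_option autoImplicit false

namespace Q36.Ch

open MvPolynomial
open scoped LinearAlgebra.Projectivization

section Arith

variable {j : ℤ} {a : ℤ} {t : ℂˣ}

theorem c1 (ha : a = 3 * j) (h : t ^ (a ^ 2 - a + 1) = 1) (h' : t ^ (a + 1) = 1) : t = 1 :=
  zcomb1 h h' ⟨-j, 1 + j * (a - 2), by subst ha; ring⟩

theorem c2 (ha : a = 3 * j) (h : t ^ (a ^ 2 - a + 1) = 1) (h' : t ^ (a - 2) = 1) : t = 1 :=
  zcomb1 h h' ⟨-(j - 1), 1 + (j - 1) * (a + 1), by subst ha; ring⟩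

theorem c3 (ha : a = 3 * j) (h : t ^ (a ^ 2 - a + 1) = 1) (h' : t ^ (2 * a - 1) = 1) : t = 1 :=
  zcomb1 h h' ⟨8 * j, -(2 * j * (2 * a - 1) + 1), by subst ha; ring⟩

theorem c4 (ha : a = 3 * j) (h : t ^ (a ^ 2 - 1) = 1) (h' : t ^ (a - 2) = 1) : t = 1 :=
  zcomb1 h h' ⟨-(j - 1), 1 + (j - 1) * (a + 2), by subst ha; ring⟩

theorem c5 (ha : a = 3 * j) (h : t ^ (a ^ 2 - 1) = 1) (h' : t ^ (2 * a - 1) = 1) : t = 1 :=
  zcomb1 h h' ⟨-(8 * j), 2 * j * (2 * a + 1) - 1, by subst ha; ring⟩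

theorem c6 (ha : a = 3 * j) (h : t ^ (a ^ 2 - 2 * a) = 1) (h' : t ^ (a + 1) = 1) : t = 1 :=
  zcomb1 h h' ⟨-j, 1 + j * (a - 3), by subst ha; ring⟩

theorem c7 (ha : a = 3 * j) (h : t ^ (a ^ 2 - 2 * a) = 1) (h' : t ^ (2 * a - 1) = 1) : t = 1 :=
  zcomb1 h h' ⟨-(8 * j), 2 * j * (2 * a - 3) - 1, by subst ha; ring⟩

theorem c8 (ha : a = 3 * j) (h : t ^ (a ^ 2 - 1) = 1) (h' : t ^ (a ^ 2 - 2 * a) = 1) : t = 1 :=
  c5 ha h (zcomb h h' ⟨1, -1, by ring⟩)

theorem c9 (ha : a = 3 * j) (h : t ^ (a ^ 2 - 1) = 1) (h' : t ^ (a ^ 2 - a + 1) = 1) : t = 1 :=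
  c4 ha h (zcomb h h' ⟨1, -1, by ring⟩)

theorem c10 (ha : a = 3 * j) (h : t ^ (a ^ 2 - 2 * a) = 1) (h' : t ^ (a ^ 2 - a + 1) = 1) : t = 1 :=
  c6 ha h (zcomb h h' ⟨-1, 1, by ring⟩)

theorem pow_of {k m l : ℤ} (h : t ^ k = 1) (hk : l = k * m) : t ^ l = 1 := by
  rw [hk, zpow_mul, h, one_zpow]

end Arith

/-- the parameter `b = 3 j + 1`, that is `a = 3 (j + 1)`. -/
theorem estimate (j : ℕ) (c : ℝ) (hc : -(9 / 4 : ℝ) < c) :
    (9 + c) * (((3 * j + 3 : ℕ) : ℝ) ^ 2 - ((3 * j + 3 : ℕ) : ℝ)) / 3 +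
      (4 + c) * (((3 * j + 3 : ℕ) : ℝ) ^ 2 - 2 * ((3 * j + 3 : ℕ) : ℝ)) ≤
    ∑ᶠ p ∈ singSet (GG (3 * j + 1)), ((((mult (GG (3 * j + 1)) p : ℕ) : ℝ)) ^ 2 + c) := by
  classical
  set b : ℕ := 3 * j + 1 with hbdef
  have hb : 1 ≤ b := by omega
  set a : ℤ := (b : ℤ) + 2 with hadef
  have ha : a = 3 * ((j : ℤ) + 1) := by rw [hadef, hbdef]; push_cast; ring
  have : NeZero (b ^ 2 + 3 * b + 3) := ⟨by positivity⟩
  have : NeZero (b ^ 2 + 4 * b + 3) := ⟨by positivity⟩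
  have : NeZero (b ^ 2 + 2 * b) := ⟨by positivity⟩
  have : NeZero (b + 3) := ⟨by positivity⟩
  have : NeZero b := ⟨by positivity⟩
  have mC : ∀ t : ℂˣ, t ∈ RU (b ^ 2 + 3 * b + 3) ↔ t ^ (a ^ 2 - a + 1) = 1 := by
    intro t
    rw [mem_RU, ← zpow_natCast, hadef]
    rw [show ((b ^ 2 + 3 * b + 3 : ℕ) : ℤ) = ((b : ℤ) + 2) ^ 2 - ((b : ℤ) + 2) + 1 by push_cast; ring]
  have mA : ∀ t : ℂˣ, t ∈ RU (b ^ 2 + 4 * b + 3) ↔ t ^ (a ^ 2 - 1) = 1 := by
    intro t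
    rw [mem_RU, ← zpow_natCast, hadef]
    rw [show ((b ^ 2 + 4 * b + 3 : ℕ) : ℤ) = ((b : ℤ) + 2) ^ 2 - 1 by push_cast; ring]
  have mB : ∀ t : ℂˣ, t ∈ RU (b ^ 2 + 2 * b) ↔ t ^ (a ^ 2 - 2 * a) = 1 := by
    intro t
    rw [mem_RU, ← zpow_natCast, hadef]
    rw [show ((b ^ 2 + 2 * b : ℕ) : ℤ) = ((b : ℤ) + 2) ^ 2 - 2 * ((b : ℤ) + 2) by push_cast; ring]
  have m1 : ∀ t : ℂˣ, t ∈ RU (b + 3) ↔ t ^ (a + 1) = 1 := by
    intro t
    rw [mem_RU, ← zpow_natCast, hadef]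
    rw [show ((b + 3 : ℕ) : ℤ) = ((b : ℤ) + 2) + 1 by push_cast; ring]
  have m2 : ∀ t : ℂˣ, t ∈ RU b ↔ t ^ (a - 2) = 1 := by
    intro t
    have e : a - 2 = (b : ℤ) := by rw [hadef]; ring
    rw [mem_RU, ← zpow_natCast, e]
  let SA : Finset ℂˣ := RU (b ^ 2 + 3 * b + 3) \ {1}
  let SB : Finset ℂˣ := RU (b ^ 2 + 4 * b + 3) \ RU (b + 3)
  let SC : Finset ℂˣ := RU (b ^ 2 + 2 * b) \ RU b
  have cA : SA.card = b ^ 2 + 3 * b + 2 := by
    rw [Finset.card_sdiff_of_subset, card_RU, Finset.card_singleton]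
    · omega
    · rw [Finset.singleton_subset_iff, mem_RU, one_pow]
  have cB : SB.card + (b + 3) = b ^ 2 + 4 * b + 3 := by
    have hsub : RU (b + 3) ⊆ RU (b ^ 2 + 4 * b + 3) := by
      intro t ht
      rw [mem_RU] at ht ⊢
      rw [show b ^ 2 + 4 * b + 3 = (b + 3) * (b + 1) by ring, pow_mul, ht, one_pow]
    have h1 := Finset.card_sdiff_add_card_eq_card hsub
    rw [card_RU, card_RU] at h1
    exact h1
  have cC : SC.card + b = b ^ 2 + 2 * b := by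
    have hsub : RU b ⊆ RU (b ^ 2 + 2 * b) := by
      intro t ht
      rw [mem_RU] at ht ⊢
      rw [show b ^ 2 + 2 * b = b * (b + 2) by ring, pow_mul, ht, one_pow]
    have h1 := Finset.card_sdiff_add_card_eq_card hsub
    rw [card_RU, card_RU] at h1
    exact h1
  have memA : ∀ t ∈ SA, t ^ (a ^ 2 - a + 1) = 1 ∧ t ≠ 1 := by
    intro t ht
    rw [Finset.mem_sdiff, mC, Finset.mem_singleton] at ht
    exact ht
  have memB : ∀ t ∈ SB, t ^ (a ^ 2 - 1) = 1 ∧ t ^ (a + 1) ≠ 1 := by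
    intro t ht
    rw [Finset.mem_sdiff, mA, m1] at ht
    exact ht
  have memC : ∀ t ∈ SC, t ^ (a ^ 2 - 2 * a) = 1 ∧ t ^ (a - 2) ≠ 1 := by
    intro t ht
    rw [Finset.mem_sdiff, mB, m2] at ht
    exact ht
  have neB : ∀ t ∈ SB, t ≠ 1 := by
    rintro t ht rfl
    exact (memB _ ht).2 (one_zpow _)
  have neC : ∀ t ∈ SC, t ≠ 1 := by
    rintro t ht rfl
    exact (memC _ ht).2 (one_zpow _)
  -- vanishing orders
  have vA : ∀ t ∈ SA, Van (pv a t) 3 (GG b) := by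
    intro t ht
    obtain ⟨h1, h2⟩ := memA t ht
    exact tripleC b t h1 (fun h => h2 (c1 ha h1 (xy_ne h))) (fun h => h2 (c2 ha h1 (yz_ne h)))
      (fun h => h2 (c3 ha h1 (zx_ne h)))
  have vB : ∀ t ∈ SB, Van (pv a t) 2 (GG b) := by
    intro t ht
    obtain ⟨h1, h2⟩ := memB t ht
    have h3 := neB t ht
    exact nodeA b t h1 (fun h => h2 (xy_ne h)) (fun h => h3 (c4 ha h1 (yz_ne h)))
      (fun h => h3 (c5 ha h1 (zx_ne h)))
  have vC : ∀ t ∈ SC, Van (pv a t) 2 (GG b) := by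
    intro t ht
    obtain ⟨h1, h2⟩ := memC t ht
    have h3 := neC t ht
    exact nodeB b hb t h1 (fun h => h3 (c6 ha h1 (xy_ne h))) (fun h => h2 (yz_ne h))
      (fun h => h3 (c7 ha h1 (zx_ne h)))
  -- point sets
  let PA : Finset (ℙ ℂ (Fin 3 → ℂ)) := SA.image (pt a)
  let PB : Finset (ℙ ℂ (Fin 3 → ℂ)) := SB.image (pt a)
  let PC : Finset (ℙ ℂ (Fin 3 → ℂ)) := SC.image (pt a)
  have kA : SA.card ≤ 3 * PA.card := by
    apply Finset.card_le_mul_card_image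
    intro p hp
    rw [Finset.mem_image] at hp
    obtain ⟨t, _, rfl⟩ := hp
    have hsub : SA.filter (fun u => pt a u = pt a t) ⊆ {t, t ^ (-a), t ^ (a - 1)} := by
      intro u hu
      rw [Finset.mem_filter] at hu
      have h1 := (pt_eq a u t).mp hu.2
      have h2 := fibre a t u h1.1.symm h1.2.symm
      simpa using h2
    exact (Finset.card_le_card hsub).trans Finset.card_le_three
  have kB : SB.card ≤ 2 * PB.card := by
    apply Finset.card_le_mul_card_image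
    intro p hp
    rw [Finset.mem_image] at hp
    obtain ⟨t, ht, rfl⟩ := hp
    have hsub : SB.filter (fun u => pt a u = pt a t) ⊆ {t, t ^ (-a)} := by
      intro u hu
      rw [Finset.mem_filter] at hu
      have h1 := (pt_eq a u t).mp hu.2
      rw [Finset.mem_insert, Finset.mem_singleton]
      by_cases hut : u = t
      · exact Or.inl hut
      · right
        rcases special a t u h1.1.symm h1.2.symm hut with h | h | h
        · exact h.1
        · exact absurd (c8 ha (memB t ht).1 h.2) (neB t ht)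
        · exact absurd (c9 ha (memB t ht).1 h) (neB t ht)
    exact (Finset.card_le_card hsub).trans Finset.card_le_two
  have kC : SC.card ≤ 2 * PC.card := by
    apply Finset.card_le_mul_card_image
    intro p hp
    rw [Finset.mem_image] at hp
    obtain ⟨t, ht, rfl⟩ := hp
    have hsub : SC.filter (fun u => pt a u = pt a t) ⊆ {t, t ^ (a - 1)} := by
      intro u hu
      rw [Finset.mem_filter] at hu
      have h1 := (pt_eq a u t).mp hu.2
      rw [Finset.mem_insert, Finset.mem_singleton]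
      by_cases hut : u = t
      · exact Or.inl hut
      · right
        rcases special a t u h1.1.symm h1.2.symm hut with h | h | h
        · exact absurd (c8 ha h.2 (memC t ht).1) (neC t ht)
        · exact h.1
        · exact absurd (c10 ha (memC t ht).1 h) (neC t ht)
    exact (Finset.card_le_card hsub).trans Finset.card_le_two
  -- transfer of relations along fibres
  have trans : ∀ (k : ℤ) (t u : ℂˣ), t ^ k = 1 → pt a t = pt a u → u ^ k = 1 := by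
    intro k t u ht h
    have h1 := (pt_eq a t u).mp h
    rcases fibre a t u h1.1 h1.2 with h | h | h
    · rw [h]; exact ht
    · rw [h, ← zpow_mul]; exact pow_of (m := -a) ht (by ring)
    · rw [h, ← zpow_mul]; exact pow_of (m := a - 1) ht (by ring)
  have dAB : Disjoint PA PB := by
    rw [Finset.disjoint_left]
    intro p hp hq
    rw [Finset.mem_image] at hp hq
    obtain ⟨t, ht, rfl⟩ := hp
    obtain ⟨u, hu, hut⟩ := hq
    exact neB u hu (c9 ha (memB u hu).1 (trans _ t u (memA t ht).1 hut.symm))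
  have dAC : Disjoint PA PC := by
    rw [Finset.disjoint_left]
    intro p hp hq
    rw [Finset.mem_image] at hp hq
    obtain ⟨t, ht, rfl⟩ := hp
    obtain ⟨u, hu, hut⟩ := hq
    exact neC u hu (c10 ha (memC u hu).1 (trans _ t u (memA t ht).1 hut.symm))
  have dBC : Disjoint PB PC := by
    rw [Finset.disjoint_left]
    intro p hp hq
    rw [Finset.mem_image] at hp hq
    obtain ⟨t, ht, rfl⟩ := hp
    obtain ⟨u, hu, hut⟩ := hq
    exact neC u hu (c8 ha (trans _ t u (memB t ht).1 hut.symm) (memC u hu).1)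
  have hfin := singSet_finite b hb
  have hvan2 : ∀ t ∈ SA, Van (pv a t) 2 (GG b) := by
    intro t ht
    have h := vA t ht
    exact ⟨h.1, fun i => ⟨(h.2 i).1, fun _ => trivial⟩⟩
  have hsubset : PA ∪ (PB ∪ PC) ⊆ hfin.toFinset := by
    intro p hp
    rw [Set.Finite.mem_toFinset]
    rw [Finset.mem_union, Finset.mem_union, Finset.mem_image, Finset.mem_image, Finset.mem_image] at hp
    rcases hp with ⟨t, ht, rfl⟩ | ⟨t, ht, rfl⟩ | ⟨t, ht, rfl⟩
    · exact mem_sing b t (hvan2 t ht)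
    · exact mem_sing b t (vB t ht)
    · exact mem_sing b t (vC t ht)
  have hmult2 : ∀ p ∈ singSet (GG b), 2 ≤ mult (GG b) p := by
    intro p hp
    apply mult_ge (GG b) (GG_ne b)
    exact ⟨hp.1, fun i => ⟨hp.2 i, fun _ => trivial⟩⟩
  rw [finsum_mem_eq_finite_toFinset_sum _ hfin]
  have step1 : ∑ p ∈ PA ∪ (PB ∪ PC), ((((mult (GG b) p : ℕ) : ℝ)) ^ 2 + c) ≤
      ∑ p ∈ hfin.toFinset, ((((mult (GG b) p : ℕ) : ℝ)) ^ 2 + c) := by
    apply Finset.sum_le_sum_of_subset_of_nonneg hsubset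
    intro p hp _
    rw [Set.Finite.mem_toFinset] at hp
    have h1 : (2 : ℝ) ≤ ((mult (GG b) p : ℕ) : ℝ) := by exact_mod_cast hmult2 p hp
    nlinarith
  refine le_trans ?_ step1
  rw [Finset.sum_union (by rw [Finset.disjoint_union_right]; exact ⟨dAB, dAC⟩), Finset.sum_union dBC]
  have sA : (PA.card : ℝ) * (9 + c) ≤ ∑ p ∈ PA, ((((mult (GG b) p : ℕ) : ℝ)) ^ 2 + c) := by
    rw [← nsmul_eq_mul]
    apply Finset.card_nsmul_le_sum
    intro p hp
    rw [Finset.mem_image] at hp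
    obtain ⟨t, ht, rfl⟩ := hp
    have h1 := mult_pt_ge (GG_homog b) (GG_ne b) a t 3 (vA t ht)
    have h2 : (3 : ℝ) ≤ ((mult (GG b) (pt a t) : ℕ) : ℝ) := by exact_mod_cast h1
    nlinarith
  have sB : (PB.card : ℝ) * (4 + c) ≤ ∑ p ∈ PB, ((((mult (GG b) p : ℕ) : ℝ)) ^ 2 + c) := by
    rw [← nsmul_eq_mul]
    apply Finset.card_nsmul_le_sum
    intro p hp
    rw [Finset.mem_image] at hp
    obtain ⟨t, ht, rfl⟩ := hp
    have h1 := mult_pt_ge (GG_homog b) (GG_ne b) a t 2 (vB t ht)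
    have h2 : (2 : ℝ) ≤ ((mult (GG b) (pt a t) : ℕ) : ℝ) := by exact_mod_cast h1
    nlinarith
  have sC : (PC.card : ℝ) * (4 + c) ≤ ∑ p ∈ PC, ((((mult (GG b) p : ℕ) : ℝ)) ^ 2 + c) := by
    rw [← nsmul_eq_mul]
    apply Finset.card_nsmul_le_sum
    intro p hp
    rw [Finset.mem_image] at hp
    obtain ⟨t, ht, rfl⟩ := hp
    have h1 := mult_pt_ge (GG_homog b) (GG_ne b) a t 2 (vC t ht)
    have h2 : (2 : ℝ) ≤ ((mult (GG b) (pt a t) : ℕ) : ℝ) := by exact_mod_cast h1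
    nlinarith
  have rA : ((b : ℝ) ^ 2 + 3 * b + 2) / 3 ≤ (PA.card : ℝ) := by
    have : ((b ^ 2 + 3 * b + 2 : ℕ) : ℝ) ≤ ((3 * PA.card : ℕ) : ℝ) := by
      rw [← cA]; exact_mod_cast kA
    push_cast at this
    linarith
  have rB : ((b : ℝ) ^ 2 + 3 * b) / 2 ≤ (PB.card : ℝ) := by
    have h1 : b ^ 2 + 4 * b + 3 ≤ 2 * PB.card + (b + 3) := by rw [← cB]; omega
    have : ((b ^ 2 + 4 * b + 3 : ℕ) : ℝ) ≤ ((2 * PB.card + (b + 3) : ℕ) : ℝ) := by exact_mod_cast h1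
    push_cast at this
    linarith
  have rC : ((b : ℝ) ^ 2 + b) / 2 ≤ (PC.card : ℝ) := by
    have h1 : b ^ 2 + 2 * b ≤ 2 * PC.card + b := by rw [← cC]; omega
    have : ((b ^ 2 + 2 * b : ℕ) : ℝ) ≤ ((2 * PC.card + b : ℕ) : ℝ) := by exact_mod_cast h1
    push_cast at this
    linarith
  have e1 : ((3 * j + 3 : ℕ) : ℝ) = (b : ℝ) + 2 := by rw [hbdef]; push_cast; ring
  rw [e1]
  have h9 : (0 : ℝ) ≤ 9 + c := by linarith
  have h4 : (0 : ℝ) ≤ 4 + c := by linarith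
  have t1 := mul_le_mul_of_nonneg_right rA h9
  have t2 := mul_le_mul_of_nonneg_right rB h4
  have t3 := mul_le_mul_of_nonneg_right rC h4
  nlinarith

theorem main (c : ℝ) (hc : -(9 / 4 : ℝ) < c) : ∃ (d : ℕ) (F : MvPolynomial (Fin 3) ℂ),
    F.IsHomogeneous d ∧ Irreducible F ∧ (singSet F).Nonempty ∧ (singSet F).Finite ∧
    hconst d F < c := by
  have h0 : 0 < 3 + 4 * c / 3 := by linarith
  obtain ⟨j, hj⟩ := exists_nat_gt ((11 + 7 * c / 3) / (3 + 4 * c / 3))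
  set b : ℕ := 3 * j + 1 with hb
  have hb1 : 1 ≤ b := by omega
  have hfin := singSet_finite b hb1
  have hest := estimate j c hc
  rw [← hb] at hest
  have hd : ((3 * j + 3 : ℕ) : ℝ) = (b : ℝ) + 2 := by rw [hb]; push_cast; ring
  have hjb : (j : ℝ) ≤ (b : ℝ) + 2 := by rw [hb]; push_cast; nlinarith
  have hbig : 4 * ((b : ℝ) + 2) ^ 2 < ∑ᶠ p ∈ singSet (GG b), ((((mult (GG b) p : ℕ) : ℝ)) ^ 2 + c) := by
    refine lt_of_lt_of_le ?_ hest
    rw [hd]
    rw [div_lt_iff₀ h0] at hj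
    have h1 : 11 + 7 * c / 3 < ((b : ℝ) + 2) * (3 + 4 * c / 3) := by nlinarith
    have h2 : (0 : ℝ) < (b : ℝ) + 2 := by positivity
    have h3 := mul_lt_mul_of_pos_left h1 h2
    nlinarith
  have hne : (singSet (GG b)).Nonempty := by
    rw [Set.nonempty_iff_ne_empty]
    intro h
    rw [h] at hbig
    simp only [Set.mem_empty_iff_false, finsum_false, finsum_zero] at hbig
    nlinarith [sq_nonneg ((b : ℝ) + 2)]
  refine ⟨2 * b + 4, GG b, GG_homog b, GG_irreducible b hb1, hne, hfin, ?_⟩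
  have hcard : 0 < ((singSet (GG b)).ncard : ℝ) := by
    exact_mod_cast (Set.ncard_pos hfin).mpr hne
  rw [hconst, div_lt_iff₀ hcard]
  have hsum : ∑ᶠ p ∈ singSet (GG b), ((((mult (GG b) p : ℕ) : ℝ)) ^ 2 + c) =
      ∑ᶠ p ∈ singSet (GG b), (((mult (GG b) p : ℕ) : ℝ)) ^ 2 + c * ((singSet (GG b)).ncard : ℝ) := by
    rw [finsum_mem_eq_finite_toFinset_sum _ hfin, finsum_mem_eq_finite_toFinset_sum _ hfin,
      Finset.sum_add_distrib, Finset.sum_const, nsmul_eq_mul, Set.ncard_eq_toFinset_card _ hfin]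
    ring
  rw [hsum] at hbig
  push_cast
  nlinarith

end Q36.Ch
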